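import Pool.Agent.helper30.B2.LA1

/-! # b2:RT  continuous eigenvalue functions; change of sign -/

set_option autoImplicit false

namespace Pool.Agent.helper68.B2

open scoped ContDiff Topology Matrix
open Matrix Set Filter

theorem RT_Dv_neg {F : Type*} [NormedAddCommGroup F] [NormedSpace ℝ F] (f : E4 → F) (v : V3)
    (x : E4) : Dv (fun y => -f y) v x = -Dv f v x := by
  unfold Dv
  rw [fderiv_fun_neg]
  rfl

theorem RT_odot_neg (G : M3) (u w : V3) : odot G u (-w) = -odot G u w := by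
  unfold odot
  rw [mulVec_neg]
  ext i j
  simp only [vecMulVec_apply, Matrix.add_apply, Matrix.neg_apply, Pi.neg_apply]
  ring

theorem RT_charpoly (A : M3) (t : ℝ) :
    (t • (1 : M3) - A).det = t ^ 3 - A.trace * t ^ 2 + A.adjugate.trace * t - A.det := by
  rw [det_fin_three, det_fin_three, adjugate_fin_three]
  simp [trace, Fin.sum_univ_succ]
  ring

theorem RT_coeff {A : M3} {a b c : ℝ} (h : RR3 A a b c) :
    A.trace = a + b + c ∧ A.adjugate.trace = a * b + b * c + c * a ∧ A.det = a * b * c := by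
  have h0 := h 0
  have h1 := h 1
  have h2 := h (-1)
  rw [RT_charpoly] at h0 h1 h2
  refine ⟨?_, ?_, ?_⟩ <;> linarith

/-- the quadratic polynomial of the other two roots. -/
theorem RT_split {A : M3} {a b c τ : ℝ} (h : RR3 A a b c) (hτ : (τ • (1 : M3) - A).det = 0) :
    0 ≤ (A.trace - τ) ^ 2 - 4 * (A.adjugate.trace - τ * (A.trace - τ)) ∧
      ∀ t, (t • (1 : M3) - A).det = (t - τ) * (t ^ 2 - (A.trace - τ) * t +
        (A.adjugate.trace - τ * (A.trace - τ))) := by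
  obtain ⟨e1, e2, e3⟩ := RT_coeff h
  constructor
  · have hτ' := hτ
    rw [h τ] at hτ'
    rcases mul_eq_zero.1 hτ' with h1 | h1
    · rcases mul_eq_zero.1 h1 with h2 | h2
      · have h3 : τ = a := by linarith
        rw [e1, e2, h3]
        nlinarith [sq_nonneg (b - c)]
      · have h3 : τ = b := by linarith
        rw [e1, e2, h3]
        nlinarith [sq_nonneg (a - c)]
    · have h3 : τ = c := by linarith
      rw [e1, e2, h3]
      nlinarith [sq_nonneg (a - b)]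
  · intro t
    rw [RT_charpoly] at hτ ⊢
    linear_combination hτ

theorem RT_roots {A : M3} {a b c τ : ℝ} (h : RR3 A a b c) (hτ : (τ • (1 : M3) - A).det = 0) :
    RR3 A τ (((A.trace - τ) -
      Real.sqrt ((A.trace - τ) ^ 2 - 4 * (A.adjugate.trace - τ * (A.trace - τ)))) / 2)
      (((A.trace - τ) +
      Real.sqrt ((A.trace - τ) ^ 2 - 4 * (A.adjugate.trace - τ * (A.trace - τ)))) / 2) := by
  obtain ⟨h1, h2⟩ := RT_split h hτ
  intro t
  rw [h2 t]
  have h3 := Real.mul_self_sqrt h1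
  generalize Real.sqrt ((A.trace - τ) ^ 2 - 4 * (A.adjugate.trace - τ * (A.trace - τ))) = s at h3 ⊢
  linear_combination ((t - τ) / 4) * h3

theorem RT_eig_det {A : M3} {μ : ℝ} {w : V3} (hw : w ≠ 0) (he : A *ᵥ w = μ • w) :
    (μ • (1 : M3) - A).det = 0 := by
  rw [← exists_mulVec_eq_zero_iff]
  refine ⟨w, hw, ?_⟩
  rw [sub_mulVec, smul_mulVec, one_mulVec, he, sub_self]

namespace Geo
variable (S : Geo)

theorem RT_lor {x : E4} (hx : x ≠ 0) : Lor (S.G x) := ⟨S.symm x hx, S.det_neg x hx, S.pos x hx⟩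

/-- replace `L` by `-L` -/
noncomputable def neg : Geo where
  G := S.G
  L := fun x => -S.L x
  lam := fun x => -S.lam x
  Γ := S.Γ
  smG := S.smG
  smL := S.smL.neg
  smlam := S.smlam.neg
  smΓ := S.smΓ
  homG := S.homG
  homL := fun t ht x => by
    change -S.L (t • x) = -S.L x
    rw [S.homL t ht x]
  homlam := fun t ht x => by
    change -S.lam (t • x) = -S.lam x
    rw [S.homlam t ht x]
  homΓ := S.homΓ
  symm := S.symm
  det_neg := S.det_neg
  pos := S.pos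
  selfadj := fun x hx => by rw [mul_neg, transpose_neg, S.selfadj x hx]
  metric := S.metric
  torsion := S.torsion
  main := fun x hx i => by
    rw [RT_Dv_neg, RT_odot_neg, ← S.main x hx i]
    rw [mul_neg, neg_mul]
    abel

theorem neg_Lam (x : E4) : S.neg.Lam x = -S.Lam x := by
  ext i j
  change S.neg.nab S.neg.lam (ee j) x i = -(S.nab S.lam (ee j) x i)
  unfold nab
  have h1 : Dv S.neg.lam (ee j) x = -Dv S.lam (ee j) x := RT_Dv_neg _ _ _
  have h2 : S.neg.Gam (ee j) x *ᵥ S.neg.lam x = -(S.Gam (ee j) x *ᵥ S.lam x) := by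
    change S.Gam (ee j) x *ᵥ (-S.lam x) = _
    rw [mulVec_neg]
  rw [h1, h2]
  simp only [Pi.add_apply, Pi.neg_apply]
  ring

theorem neg_NC (h : S.NC) : S.neg.NC := by
  rintro ⟨c, hc⟩
  refine h ⟨-c, fun x hx => ?_⟩
  have := hc x hx
  have h2 : -S.L x = c • (1 : M3) := this
  rw [neg_smul, ← h2, neg_neg]

/-- the causal eigenvalue is continuous. -/
theorem RT_continuous (τ : E4 → ℝ) (hτ : ∀ x, x ≠ 0 → ∃ w : V3, w ≠ 0 ∧ S.L x *ᵥ w = τ x • w ∧
    S.g x w w ≤ 0) : ContinuousOn τ {0}ᶜ := by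
  classical
  intro x hx
  have hx0 : x ≠ 0 := hx
  apply ContinuousAt.continuousWithinAt
  -- unit eigenvectors
  have hunit : ∀ y : E4, ∃ w : V3, y ≠ 0 → ‖w‖ = 1 ∧ S.L y *ᵥ w = τ y • w ∧ S.g y w w ≤ 0 := by
    intro y
    by_cases hy : y ≠ 0
    · obtain ⟨w, h1, h2, h3⟩ := hτ y hy
      have hn : 0 < ‖w‖ := norm_pos_iff.2 h1
      refine ⟨‖w‖⁻¹ • w, fun _ => ⟨?_, ?_, ?_⟩⟩
      · rw [norm_smul, norm_inv, norm_norm, inv_mul_cancel₀ hn.ne']
      · rw [mulVec_smul, h2, smul_comm]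
      · unfold g bil at h3 ⊢
        rw [mulVec_smul, smul_dotProduct, dotProduct_smul, smul_eq_mul, smul_eq_mul]
        have : 0 ≤ ‖w‖⁻¹ := by positivity
        nlinarith [mul_nonneg this this]
    · exact ⟨0, fun h => absurd h hy⟩
  choose w hw using hunit
  have hL : ContinuousAt S.L x := S.smL.continuousOn.continuousAt (isOpen_compl_singleton.mem_nhds hx)
  have hG : ContinuousAt S.G x := S.smG.continuousOn.continuousAt (isOpen_compl_singleton.mem_nhds hx)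
  have hne : ∀ᶠ y in 𝓝 x, y ≠ 0 := isOpen_compl_singleton.mem_nhds hx
  have hbd : ∀ᶠ y in 𝓝 x, |τ y| ≤ ‖S.L x‖ + 1 := by
    have h1 : ∀ᶠ y in 𝓝 x, ‖S.L y‖ < ‖S.L x‖ + 1 := hL.norm.eventually (gt_mem_nhds (lt_add_one _))
    filter_upwards [h1, hne] with y y1 y2
    obtain ⟨a1, a2, -⟩ := hw y y2
    have h2 : ‖τ y • w y‖ ≤ ‖S.L y‖ * ‖w y‖ := by
      rw [← a2]; exact linfty_opNorm_mulVec _ _
    rw [norm_smul, a1, mul_one, mul_one, Real.norm_eq_abs] at h2
    linarith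
  rw [ContinuousAt, tendsto_iff_ultrafilter]
  intro 𝒰 h𝒰
  -- the limit along the ultrafilter
  have hK : IsCompact (Icc (-(‖S.L x‖ + 1)) (‖S.L x‖ + 1) ×ˢ Metric.sphere (0 : V3) 1) :=
    isCompact_Icc.prod (isCompact_sphere _ _)
  have hmem : ∀ᶠ y in (𝒰 : Filter E4), (τ y, w y) ∈
      Icc (-(‖S.L x‖ + 1)) (‖S.L x‖ + 1) ×ˢ Metric.sphere (0 : V3) 1 := by
    filter_upwards [h𝒰 hbd, h𝒰 hne] with y y1 y2
    refine ⟨abs_le.1 y1, ?_⟩
    rw [mem_sphere_zero_iff_norm]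
    exact (hw y y2).1
  obtain ⟨⟨t, v⟩, hmemK, hlim⟩ := hK.ultrafilter_le_nhds' (𝒰.map fun y => (τ y, w y)) hmem
  have hlim' : Tendsto (fun y => (τ y, w y)) 𝒰 (𝓝 (t, v)) := hlim
  have ht : Tendsto τ 𝒰 (𝓝 t) := (continuous_fst.tendsto _).comp hlim'
  have hv : Tendsto w 𝒰 (𝓝 v) := (continuous_snd.tendsto _).comp hlim'
  have hL' : Tendsto S.L 𝒰 (𝓝 (S.L x)) := hL.tendsto.mono_left h𝒰
  have hG' : Tendsto S.G 𝒰 (𝓝 (S.G x)) := hG.tendsto.mono_left h𝒰
  have hvn : ‖v‖ = 1 := by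
    have := hmemK.2
    rwa [mem_sphere_zero_iff_norm] at this
  have hv0 : v ≠ 0 := by
    intro h; rw [h, norm_zero] at hvn; exact zero_ne_one hvn
  have hmv : ∀ (A : E4 → M3) (B : M3), Tendsto A 𝒰 (𝓝 B) →
      Tendsto (fun y => A y *ᵥ w y) 𝒰 (𝓝 (B *ᵥ v)) := by
    intro A B hA
    have hc : Continuous fun p : M3 × V3 => p.1 *ᵥ p.2 :=
      Continuous.matrix_mulVec continuous_fst continuous_snd
    exact (hc.tendsto (B, v)).comp (hA.prodMk_nhds hv)
  have e1 : S.L x *ᵥ v = t • v := by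
    have h1 := hmv _ _ hL'
    have h2 : Tendsto (fun y => τ y • w y) 𝒰 (𝓝 (t • v)) := ht.smul hv
    have h3 : (fun y => S.L y *ᵥ w y) =ᶠ[(𝒰 : Filter E4)] fun y => τ y • w y := by
      filter_upwards [h𝒰 hne] with y hy
      exact (hw y hy).2.1
    exact tendsto_nhds_unique h1 (h2.congr' h3.symm)
  have e2 : S.g x v v ≤ 0 := by
    have h1 : Tendsto (fun y => w y ⬝ᵥ (S.G y *ᵥ w y)) 𝒰 (𝓝 (v ⬝ᵥ (S.G x *ᵥ v))) := by
      have hc : Continuous fun p : V3 × V3 => p.1 ⬝ᵥ p.2 :=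
        Continuous.dotProduct continuous_fst continuous_snd
      exact (hc.tendsto (v, S.G x *ᵥ v)).comp (hv.prodMk_nhds (hmv _ _ hG'))
    refine le_of_tendsto h1 ?_
    filter_upwards [h𝒰 hne] with y hy
    exact (hw y hy).2.2
  obtain ⟨u, u1, u2, u3⟩ := hτ x hx0
  have e3 : t = τ x := LA_causal_unique (S.RT_lor hx0) (S.selfadj x hx0) hv0 u1 e1 u2 e2 u3
  rw [← e3]
  exact ht

theorem roots_exist (h : ∀ x, x ≠ 0 → ∃ a b c : ℝ, RR3 (S.L x) a b c) : Nonempty (Roots S) := by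
  classical
  have hex : ∀ x : E4, ∃ μ : ℝ, x ≠ 0 → ∃ w : V3, w ≠ 0 ∧ S.L x *ᵥ w = μ • w ∧ S.g x w w ≤ 0 := by
    intro x
    by_cases hx : x ≠ 0
    · obtain ⟨a, b, c, hr⟩ := h x hx
      obtain ⟨μ, w, h1, h2, h3⟩ := LA_causal_exists (S.RT_lor hx) (S.selfadj x hx) hr
      exact ⟨μ, fun _ => ⟨w, h1, h2, h3⟩⟩
    · exact ⟨0, fun h => absurd h hx⟩
  choose τ hτ using hex
  have hcτ := S.RT_continuous τ hτ
  have hHτ : Hom τ := by
    intro t ht x
    by_cases hx : x = 0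
    · rw [hx, smul_zero]
    · have htx : t • x ≠ 0 := smul_ne_zero ht.ne' hx
      obtain ⟨w, w1, w2, w3⟩ := hτ x hx
      obtain ⟨v, v1, v2, v3⟩ := hτ (t • x) htx
      rw [S.homL t ht x] at v2
      unfold g at v3
      rw [S.homG t ht x] at v3
      exact LA_causal_unique (S.RT_lor hx) (S.selfadj x hx) v1 w1 v2 w2 v3 w3
  have hLc : ContinuousOn S.L {0}ᶜ := S.smL.continuousOn
  have hp : ContinuousOn (fun x => (S.L x).trace - τ x) {0}ᶜ := by
    have h1 : Continuous fun A : M3 => A.trace := Continuous.matrix_trace continuous_id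
    exact (h1.comp_continuousOn hLc).sub hcτ
  have hq : ContinuousOn (fun x => (S.L x).adjugate.trace - τ x * ((S.L x).trace - τ x)) {0}ᶜ := by
    have h1 : Continuous fun A : M3 => A.adjugate.trace :=
      Continuous.matrix_trace (Continuous.matrix_adjugate continuous_id)
    exact (h1.comp_continuousOn hLc).sub (hcτ.mul hp)
  have hD : ContinuousOn (fun x => Real.sqrt (((S.L x).trace - τ x) ^ 2 -
      4 * ((S.L x).adjugate.trace - τ x * ((S.L x).trace - τ x)))) {0}ᶜ :=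
    Real.continuous_sqrt.comp_continuousOn ((hp.pow 2).sub (hq.const_mul 4 |>.congr fun x _ => rfl))
  let σ₁ : E4 → ℝ := fun x => (((S.L x).trace - τ x) -
      Real.sqrt (((S.L x).trace - τ x) ^ 2 - 4 * ((S.L x).adjugate.trace -
        τ x * ((S.L x).trace - τ x)))) / 2
  let σ₂ : E4 → ℝ := fun x => (((S.L x).trace - τ x) +
      Real.sqrt (((S.L x).trace - τ x) ^ 2 - 4 * ((S.L x).adjugate.trace -
        τ x * ((S.L x).trace - τ x)))) / 2
  have c1 : ContinuousOn σ₁ {0}ᶜ := (hp.sub hD).div_const 2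
  have c2 : ContinuousOn σ₂ {0}ᶜ := (hp.add hD).div_const 2
  refine ⟨⟨τ, σ₁, σ₂, hcτ, c1, c2, hHτ, ?_, ?_, ?_, ?_, hτ⟩⟩
  · intro t ht x
    simp only [σ₁, σ₂, S.homL t ht x, hHτ t ht x]
  · intro t ht x
    simp only [σ₁, σ₂, S.homL t ht x, hHτ t ht x]
  · intro x hx
    obtain ⟨a, b, c, hr⟩ := h x hx
    obtain ⟨w, w1, w2, -⟩ := hτ x hx
    exact RT_roots hr (RT_eig_det w1 w2)
  · intro x hx
    have := Real.sqrt_nonneg (((S.L x).trace - τ x) ^ 2 - 4 * ((S.L x).adjugate.trace -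
        τ x * ((S.L x).trace - τ x)))
    simp only [σ₁, σ₂]
    linarith

end Geo

end Pool.Agent.helper68.B2
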