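import Pool.Agent.helper68.B2.Defs

/-! # b2:W12  unique continuation for symmetric tensors of Killing type -/

set_option autoImplicit false

namespace Pool.Agent.helper68.B2

open scoped ContDiff Topology Matrix
open Matrix Set

/-! ### frame calculus -/

/-- frame derivative of a function -/
noncomputable def W12_D (c : Fin 3) (f : E4 → ℝ) : E4 → ℝ := fun x => Dv f (ee c) x

theorem W12_fld (c : Fin 3) (x : E4) : fld (ee c) x = J c x := by
  unfold fld ee
  rw [Finset.sum_eq_single c]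
  · simp
  · intro b _ hb
    simp [hb]
  · simp

theorem W12_D_apply (c : Fin 3) (f : E4 → ℝ) (x : E4) : W12_D c f x = fderiv ℝ f x (J c x) := by
  unfold W12_D Dv
  rw [W12_fld]

theorem W12_J_apply (c : Fin 3) (x : E4) (j : Fin 4) : J c x j = ∑ i, Jm c j i * x i := by
  unfold J
  rw [Matrix.ofLp_toEuclideanCLM]
  rfl

theorem W12_open : IsOpen ({0}ᶜ : Set E4) := isOpen_compl_singleton

theorem W12_Sm_at {f : E4 → ℝ} (hf : Sm f) {x : E4} (hx : x ≠ 0) : ContDiffAt ℝ ∞ f x :=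
  hf.contDiffAt (W12_open.mem_nhds hx)

theorem W12_Sm_diff {f : E4 → ℝ} (hf : Sm f) {x : E4} (hx : x ≠ 0) : DifferentiableAt ℝ f x :=
  (W12_Sm_at hf hx).differentiableAt (by simp)

theorem W12_Sm_D {f : E4 → ℝ} (c : Fin 3) (hf : Sm f) : Sm (W12_D c f) := by
  have h1 : ContDiffOn ℝ ∞ (fderiv ℝ f) {0}ᶜ := hf.fderiv_of_isOpen W12_open (by simp)
  have h2 : ContDiffOn ℝ ∞ (fun x => fderiv ℝ f x (J c x)) {0}ᶜ :=
    h1.clm_apply (J c).contDiff.contDiffOn
  exact h2.congr fun x _ => W12_D_apply c f x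

theorem W12_D_congr {f g : E4 → ℝ} (c : Fin 3) (h : ∀ x, x ≠ 0 → f x = g x) {x : E4} (hx : x ≠ 0) :
    W12_D c f x = W12_D c g x := by
  rw [W12_D_apply, W12_D_apply]
  have : f =ᶠ[𝓝 x] g := by
    filter_upwards [W12_open.mem_nhds hx] with y hy
    exact h y hy
  rw [this.fderiv_eq]

theorem W12_D_add {f g : E4 → ℝ} (c : Fin 3) (hf : Sm f) (hg : Sm g) {x : E4} (hx : x ≠ 0) :
    W12_D c (fun y => f y + g y) x = W12_D c f x + W12_D c g x := by
  rw [W12_D_apply, W12_D_apply, W12_D_apply]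
  have := fderiv_add (W12_Sm_diff hf hx) (W12_Sm_diff hg hx)
  have h2 : fderiv ℝ (fun y => f y + g y) x = fderiv ℝ f x + fderiv ℝ g x := this
  rw [h2]
  rfl

theorem W12_D_mul {f g : E4 → ℝ} (c : Fin 3) (hf : Sm f) (hg : Sm g) {x : E4} (hx : x ≠ 0) :
    W12_D c (fun y => f y * g y) x = W12_D c f x * g x + f x * W12_D c g x := by
  rw [W12_D_apply, W12_D_apply, W12_D_apply]
  have h2 : fderiv ℝ (fun y => f y * g y) x = f x • fderiv ℝ g x + g x • fderiv ℝ f x :=
    fderiv_mul (W12_Sm_diff hf hx) (W12_Sm_diff hg hx)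
  rw [h2]
  simp only [FunLike.coe_add, FunLike.coe_smul, Pi.add_apply, Pi.smul_apply, smul_eq_mul]
  ring

theorem W12_Sm_sum {ι : Type*} (s : Finset ι) {f : ι → E4 → ℝ} (hf : ∀ i, Sm (f i)) :
    Sm (fun y => ∑ i ∈ s, f i y) :=
  ContDiffOn.sum fun i _ => hf i

theorem W12_Sm_add {f g : E4 → ℝ} (hf : Sm f) (hg : Sm g) : Sm (fun y => f y + g y) :=
  ContDiffOn.add hf hg

theorem W12_Sm_mul {f g : E4 → ℝ} (hf : Sm f) (hg : Sm g) : Sm (fun y => f y * g y) :=
  ContDiffOn.mul hf hg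

theorem W12_D_sum {ι : Type*} (s : Finset ι) {f : ι → E4 → ℝ} (c : Fin 3) (hf : ∀ i, Sm (f i))
    {x : E4} (hx : x ≠ 0) : W12_D c (fun y => ∑ i ∈ s, f i y) x = ∑ i ∈ s, W12_D c (f i) x := by
  rw [W12_D_apply, fderiv_fun_sum (fun i _ => W12_Sm_diff (hf i) hx)]
  rw [FunLike.coe_sum, Finset.sum_apply]
  exact Finset.sum_congr rfl fun i _ => (W12_D_apply _ _ _).symm

theorem W12_J_comm (c d : Fin 3) (x : E4) :
    J d (J c x) - J c (J d x) = ∑ k, (2 * eps c d k) • J k x := by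
  ext j
  rw [PiLp.sub_apply, W12_J_apply, W12_J_apply, WithLp.ofLp_sum, Finset.sum_apply]
  simp only [PiLp.smul_apply, smul_eq_mul, W12_J_apply]
  fin_cases c <;> fin_cases d <;> fin_cases j <;>
    simp [Jm, eps, Fin.sum_univ_succ] <;> ring

theorem W12_comm {f : E4 → ℝ} (c d : Fin 3) (hf : Sm f) {x : E4} (hx : x ≠ 0) :
    W12_D c (W12_D d f) x - W12_D d (W12_D c f) x = ∑ k, (2 * eps c d k) * W12_D k f x := by
  have hdd : DifferentiableAt ℝ (fderiv ℝ f) x := by
    have h1 : ContDiffOn ℝ ∞ (fderiv ℝ f) {0}ᶜ := hf.fderiv_of_isOpen W12_open (by simp)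
    exact (h1.contDiffAt (W12_open.mem_nhds hx)).differentiableAt (by simp)
  have key : ∀ c d : Fin 3, W12_D c (W12_D d f) x =
      fderiv ℝ (fderiv ℝ f) x (J c x) (J d x) + fderiv ℝ f x (J d (J c x)) := by
    intro c d
    rw [W12_D_apply]
    have e1 : W12_D d f = fun y => (fderiv ℝ f y) (J d y) := by
      funext y; exact W12_D_apply d f y
    rw [e1]
    have h1 : HasFDerivAt (fun y => (fderiv ℝ f y) (J d y))
        ((fderiv ℝ f x).comp (J d) + (fderiv ℝ (fderiv ℝ f) x).flip (J d x)) x :=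
      hdd.hasFDerivAt.clm_apply (J d).hasFDerivAt
    rw [h1.fderiv]
    simp only [FunLike.coe_add, Pi.add_apply, ContinuousLinearMap.comp_apply,
      ContinuousLinearMap.flip_apply]
    ring
  have hsymm : fderiv ℝ (fderiv ℝ f) x (J c x) (J d x) = fderiv ℝ (fderiv ℝ f) x (J d x) (J c x) := by
    have h1 : IsSymmSndFDerivAt ℝ f x := (W12_Sm_at hf hx).isSymmSndFDerivAt (by
      simp only [minSmoothness_of_isRCLikeNormedField]
      exact WithTop.coe_le_coe.2 (le_top : (2 : ℕ∞) ≤ ⊤))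
    exact h1 _ _
  rw [key, key, hsymm]
  have : fderiv ℝ f x (J d (J c x)) - fderiv ℝ f x (J c (J d x)) = ∑ k, (2 * eps c d k) * W12_D k f x := by
    rw [← map_sub, W12_J_comm, map_sum]
    refine Finset.sum_congr rfl fun k _ => ?_
    rw [map_smul, smul_eq_mul, W12_D_apply]
  linarith

theorem W12_hom_fderiv {f : E4 → ℝ} (hf : Sm f) (hH : Hom f) {t : ℝ} (ht : 0 < t) {x : E4} (hx : x ≠ 0) :
    t • fderiv ℝ f (t • x) = fderiv ℝ f x := by
  have htx : t • x ≠ 0 := smul_ne_zero ht.ne' hx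
  have h1 : HasFDerivAt (fun y => f (t • y))
      ((fderiv ℝ f (t • x)).comp (t • ContinuousLinearMap.id ℝ E4)) x := by
    have h2 : HasFDerivAt (fun y : E4 => t • y) (t • ContinuousLinearMap.id ℝ E4) x :=
      (hasFDerivAt_id x).const_smul t
    exact (W12_Sm_diff hf htx).hasFDerivAt.comp x h2
  have h3 : (fun y => f (t • y)) = f := funext fun y => hH t ht y
  rw [h3] at h1
  rw [h1.fderiv]
  ext v
  simp

theorem W12_Hom_D {f : E4 → ℝ} (c : Fin 3) (hf : Sm f) (hH : Hom f) : Hom (W12_D c f) := by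
  intro t ht x
  by_cases hx : x = 0
  · rw [hx, smul_zero]
  · rw [W12_D_apply, W12_D_apply, map_smul, ← W12_hom_fderiv hf hH ht hx]
    simp

theorem W12_radial {f : E4 → ℝ} (hf : Sm f) (hH : Hom f) {x : E4} (hx : x ≠ 0) :
    fderiv ℝ f x x = 0 := by
  have h1 : HasDerivAt (fun t : ℝ => f (t • x)) (fderiv ℝ f ((1 : ℝ) • x) x) 1 := by
    have h2 : HasDerivAt (fun t : ℝ => t • x) x 1 := by
      simpa using (hasDerivAt_id (1 : ℝ)).smul_const x
    have h3 : HasFDerivAt f (fderiv ℝ f ((1 : ℝ) • x)) ((1 : ℝ) • x) := by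
      rw [one_smul]; exact (W12_Sm_diff hf hx).hasFDerivAt
    exact h3.comp_hasDerivAt (1 : ℝ) h2
  have h4 : HasDerivAt (fun t : ℝ => f (t • x)) 0 1 := by
    have : (fun t : ℝ => f (t • x)) =ᶠ[𝓝 1] fun _ => f x := by
      filter_upwards [Ioi_mem_nhds (zero_lt_one : (0 : ℝ) < 1)] with t ht
      exact hH t ht x
    exact (hasDerivAt_const (1 : ℝ) (f x)).congr_of_eventuallyEq this
  have := h1.unique h4
  rwa [one_smul] at this

theorem W12_decomp (x w : E4) :
    (‖x‖ ^ 2) • w = (inner ℝ x w) • x + ∑ c : Fin 3, (inner ℝ (J c x) w) • J c x := by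
  rw [EuclideanSpace.norm_sq_eq]
  ext j
  simp only [PiLp.smul_apply, PiLp.add_apply, WithLp.ofLp_sum, Finset.sum_apply, smul_eq_mul,
    PiLp.inner_apply, Real.norm_eq_abs, sq_abs]
  simp only [W12_J_apply, RCLike.inner_apply, conj_trivial]
  fin_cases j <;> simp [Jm, Fin.sum_univ_succ] <;> ring

/-! ### functions bounded by the jet -/

/-- functions which are locally bounded by a multiple of the jet `U` -/
def W12_Bd {ι : Type*} [Fintype ι] (U : E4 → ι → ℝ) : Submodule ℝ (E4 → ℝ) where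
  carrier := {f | ∀ C : Set E4, IsCompact C → C ⊆ {0}ᶜ → ∃ M : ℝ, 0 ≤ M ∧ ∀ x ∈ C, |f x| ≤ M * ‖U x‖}
  zero_mem' := fun C _ _ => ⟨0, le_refl _, fun x _ => by simp⟩
  add_mem' := by
    intro f g hf hg C hC hC0
    obtain ⟨M, hM, h1⟩ := hf C hC hC0
    obtain ⟨N, hN, h2⟩ := hg C hC hC0
    refine ⟨M + N, add_nonneg hM hN, fun x hx => ?_⟩
    calc |(f + g) x| ≤ |f x| + |g x| := abs_add_le _ _
      _ ≤ M * ‖U x‖ + N * ‖U x‖ := add_le_add (h1 x hx) (h2 x hx)
      _ = _ := by ring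
  smul_mem' := by
    intro c f hf C hC hC0
    obtain ⟨M, hM, h1⟩ := hf C hC hC0
    refine ⟨|c| * M, by positivity, fun x hx => ?_⟩
    calc |(c • f) x| = |c| * |f x| := by rw [Pi.smul_apply, smul_eq_mul, abs_mul]
      _ ≤ |c| * (M * ‖U x‖) := by gcongr; exact h1 x hx
      _ = _ := by ring

section Bd
variable {ι : Type*} [Fintype ι] {U : E4 → ι → ℝ}

theorem W12_Bd_congr {f g : E4 → ℝ} (h : ∀ x, x ≠ 0 → f x = g x) (hg : g ∈ W12_Bd U) :
    f ∈ W12_Bd U := by
  intro C hC hC0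
  obtain ⟨M, hM, h1⟩ := hg C hC hC0
  exact ⟨M, hM, fun x hx => by rw [h x (hC0 hx)]; exact h1 x hx⟩

theorem W12_Bd_entry (i : ι) : (fun x => U x i) ∈ W12_Bd U := by
  intro C _ _
  exact ⟨1, zero_le_one, fun x _ => by rw [one_mul]; exact norm_le_pi_norm (U x) i⟩

theorem W12_Bd_mul {f g : E4 → ℝ} (hg : ContinuousOn g {0}ᶜ) (hf : f ∈ W12_Bd U) :
    (fun x => g x * f x) ∈ W12_Bd U := by
  intro C hC hC0
  obtain ⟨M, hM, h1⟩ := hf C hC hC0
  obtain ⟨N, hN⟩ := hC.exists_bound_of_continuousOn (hg.mono hC0)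
  refine ⟨max N 0 * M, by positivity, fun x hx => ?_⟩
  have h2 : |g x| ≤ max N 0 := (hN x hx).trans (le_max_left _ _)
  calc |g x * f x| = |g x| * |f x| := abs_mul _ _
    _ ≤ max N 0 * (M * ‖U x‖) := by gcongr; exact h1 x hx
    _ = _ := by ring

theorem W12_Bd_sum {κ : Type*} (s : Finset κ) {f : κ → E4 → ℝ} (h : ∀ i, f i ∈ W12_Bd U) :
    (fun x => ∑ i ∈ s, f i x) ∈ W12_Bd U := by
  have : (fun x => ∑ i ∈ s, f i x) = ∑ i ∈ s, f i := by
    funext x; rw [Finset.sum_apply]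
  rw [this]
  exact Submodule.sum_mem _ fun i _ => h i

end Bd

/-! ### the algebra of third derivatives -/

theorem W12_alg {Q : Type*} [AddCommGroup Q] [Module ℝ Q]
    (t : Fin 3 → Fin 3 → Fin 3 → Fin 3 → Fin 3 → Q)
    (s1 : ∀ a b c d e, t a b c d e = t a b d c e) (s2 : ∀ a b c d e, t a b c d e = t a b c e d)
    (s3 : ∀ a b c d e, t a b c d e = t b a c d e)
    (eq : ∀ a b c d e, t a b d e c + t b c d e a + t c a d e b = 0) (a b c d e : Fin 3) :
    t a b c d e = 0 := by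
  have tri : ∀ a b c d e, t a b c d e + t b c a d e + t a c b d e = 0 := by
    intro a b c d e
    have h := eq a b c d e
    rw [s2 a b d e c, s1 a b d c e, s2 b c d e a, s1 b c d a e, s3 c a, s2 a c d e b, s1 a c d b e] at h
    exact h
  have q1 := tri a b c d e
  have q2 := tri a b d c e
  have q3 := tri a c d b e
  have q4 := tri b c d a e
  have q5 := tri a b e c d
  have q6 := tri a c e b d
  have q7 := tri b c e a d
  have q8 := tri a d e b c
  have q9 := tri b d e a c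
  have q10 := tri c d e a b
  -- canonical forms
  rw [s1 a b d c e] at q2
  rw [s1 a c d b e, s1 a d c b e] at q3
  rw [s1 b c d a e, s1 c d b a e, s1 b d c a e] at q4
  rw [s1 a b e c d, s2 a b c e d] at q5
  rw [s1 a c e b d, s2 a c b e d, s1 a e c b d] at q6
  rw [s1 b c e a d, s2 b c a e d, s1 c e b a d, s1 b e c a d] at q7
  rw [s1 a d e b c, s2 a d b e c, s1 a e d b c, s2 a e b d c] at q8
  rw [s1 b d e a c, s2 b d a e c, s1 d e b a c, s1 b e d a c, s2 b e a d c] at q9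
  rw [s1 c d e a b, s2 c d a e b, s1 d e c a b, s2 d e a c b, s1 c e d a b, s2 c e a d b] at q10
  have key : (6 : ℝ) • t a b c d e = 0 := by
    linear_combination (norm := module) (q1 + q2 - q3 - q4) + (q1 + q5 - q6 - q7) +
      (q2 + q5 - q8 - q9) + (2 : ℝ) • q10
  have h6 : (6 : ℝ) ≠ 0 := by norm_num
  exact (smul_eq_zero.1 key).resolve_left h6

/-! ### the jet of `K` and the conclusion -/

/-- index set of the entries of the 2-jet -/
abbrev W12_I := (Fin 3 × Fin 3) ⊕ ((Fin 3 × Fin 3 × Fin 3) ⊕ (Fin 3 × Fin 3 × Fin 3 × Fin 3))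

/-- the entries `K_ij`, `E_k K_ij`, `E_l E_k K_ij` -/
noncomputable def W12_entry (K : Fin 3 → Fin 3 → E4 → ℝ) : W12_I → E4 → ℝ
  | Sum.inl (i, j) => K i j
  | Sum.inr (Sum.inl (k, i, j)) => W12_D k (K i j)
  | Sum.inr (Sum.inr (l, k, i, j)) => W12_D l (W12_D k (K i j))

noncomputable def W12_U (K : Fin 3 → Fin 3 → E4 → ℝ) (x : E4) : W12_I → ℝ := fun i => W12_entry K i x

section main
variable {K : Fin 3 → Fin 3 → E4 → ℝ}

theorem W12_B0 (i j : Fin 3) : K i j ∈ W12_Bd (W12_U K) :=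
  W12_Bd_entry (U := W12_U K) (Sum.inl (i, j))

theorem W12_B1 (k i j : Fin 3) : W12_D k (K i j) ∈ W12_Bd (W12_U K) :=
  W12_Bd_entry (U := W12_U K) (Sum.inr (Sum.inl (k, i, j)))

theorem W12_B2 (l k i j : Fin 3) : W12_D l (W12_D k (K i j)) ∈ W12_Bd (W12_U K) :=
  W12_Bd_entry (U := W12_U K) (Sum.inr (Sum.inr (l, k, i, j)))

theorem W12_entry_Sm (hK : ∀ i j, Sm (K i j)) (s : W12_I) : Sm (W12_entry K s) := by
  rcases s with ⟨i, j⟩ | ⟨k, i, j⟩ | ⟨l, k, i, j⟩
  · exact hK i j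
  · exact W12_Sm_D k (hK i j)
  · exact W12_Sm_D l (W12_Sm_D k (hK i j))

theorem W12_entry_Hom (hK : ∀ i j, Sm (K i j)) (hH : ∀ i j, Hom (K i j)) (s : W12_I) :
    Hom (W12_entry K s) := by
  rcases s with ⟨i, j⟩ | ⟨k, i, j⟩ | ⟨l, k, i, j⟩
  · exact hH i j
  · exact W12_Hom_D k (hK i j) (hH i j)
  · exact W12_Hom_D l (W12_Sm_D k (hK i j)) (W12_Hom_D k (hK i j) (hH i j))

/-- the third derivatives are bounded by the jet. -/
theorem W12_third (hK : ∀ i j, Sm (K i j)) (hsym : ∀ x, x ≠ 0 → ∀ i j, K i j x = K j i x)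
    (A : Fin 3 → Fin 3 → Fin 3 → Fin 3 → Fin 3 → E4 → ℝ) (hA : ∀ a b c i j, Sm (A a b c i j))
    (heq : ∀ x, x ≠ 0 → ∀ a b c, W12_D c (K a b) x + W12_D a (K b c) x
      + W12_D b (K c a) x = ∑ i, ∑ j, A a b c i j x * K i j x) (c d e a b : Fin 3) :
    W12_D c (W12_D d (W12_D e (K a b))) ∈ W12_Bd (W12_U K) := by
  set N := W12_Bd (W12_U K) with hN
  let T : Fin 3 → Fin 3 → Fin 3 → Fin 3 → Fin 3 → E4 → ℝ := fun a b c d e =>
    W12_D c (W12_D d (W12_D e (K a b)))
  let t : Fin 3 → Fin 3 → Fin 3 → Fin 3 → Fin 3 → ((E4 → ℝ) ⧸ N) := fun a b c d e =>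
    Submodule.Quotient.mk (T a b c d e)
  have hsm : ∀ e a b, Sm (W12_D e (K a b)) := fun e a b => W12_Sm_D e (hK a b)
  have hsm2 : ∀ d e a b, Sm (W12_D d (W12_D e (K a b))) := fun d e a b => W12_Sm_D d (hsm e a b)
  have h0 : t a b c d e = 0 := by
    apply W12_alg t
    · intro a b c d e
      rw [Submodule.Quotient.eq]
      have : (fun x => ∑ k, (2 * eps c d k) * W12_D k (W12_D e (K a b)) x) ∈ N :=
        W12_Bd_sum _ fun k => W12_Bd_mul (g := fun _ => 2 * eps c d k) continuousOn_const (W12_B2 k e a b)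
      exact W12_Bd_congr (fun x hx => W12_comm c d (hsm e a b) hx) this
    · intro a b c d e
      rw [Submodule.Quotient.eq]
      have : (fun x => ∑ k, (2 * eps d e k) * W12_D c (W12_D k (K a b)) x) ∈ N :=
        W12_Bd_sum _ fun k => W12_Bd_mul (g := fun _ => 2 * eps d e k) continuousOn_const (W12_B2 c k a b)
      refine W12_Bd_congr (fun x hx => ?_) this
      change W12_D c (W12_D d (W12_D e (K a b))) x - W12_D c (W12_D e (W12_D d (K a b))) x = _
      have h1 : W12_D c (W12_D d (W12_D e (K a b))) x =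
          W12_D c (fun y => W12_D e (W12_D d (K a b)) y + ∑ k, (2 * eps d e k) * W12_D k (K a b) y) x := by
        apply W12_D_congr c _ hx
        intro y hy
        have := W12_comm d e (hK a b) hy
        linarith
      have h3 : ∀ k, Sm (fun y => (2 * eps d e k) * W12_D k (K a b) y) := fun k =>
        W12_Sm_mul (f := fun _ => 2 * eps d e k) contDiffOn_const (hsm k a b)
      rw [h1, W12_D_add c (hsm2 e d a b) (W12_Sm_sum _ h3) hx, W12_D_sum _ c h3 hx]
      rw [add_sub_cancel_left]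
      refine Finset.sum_congr rfl fun k _ => ?_
      rw [W12_D_mul c (f := fun _ => 2 * eps d e k) contDiffOn_const (hsm k a b) hx]
      have : W12_D c (fun _ => 2 * eps d e k) x = 0 := by
        rw [W12_D_apply]; simp
      rw [this]; ring
    · intro a b c d e
      rw [Submodule.Quotient.eq]
      refine W12_Bd_congr (g := 0) (fun x hx => ?_) (Submodule.zero_mem _)
      change W12_D c (W12_D d (W12_D e (K a b))) x - W12_D c (W12_D d (W12_D e (K b a))) x = 0
      rw [sub_eq_zero]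
      apply W12_D_congr c _ hx
      intro y hy
      apply W12_D_congr d _ hy
      intro z hz
      apply W12_D_congr e _ hz
      intro u hu
      exact hsym u hu a b
    · intro a b c d e
      change Submodule.Quotient.mk (T a b d e c) + Submodule.Quotient.mk (T b c d e a) +
        Submodule.Quotient.mk (T c a d e b) = 0
      rw [← Submodule.Quotient.mk_add, ← Submodule.Quotient.mk_add, Submodule.Quotient.mk_eq_zero]
      -- the twice differentiated equation
      have hR : ∀ i j, Sm (fun y => A a b c i j y * K i j y) := fun i j => W12_Sm_mul (hA a b c i j) (hK i j)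
      have hRs : ∀ i, Sm (fun y => ∑ j, A a b c i j y * K i j y) := fun i => W12_Sm_sum _ (hR i)
      have e1 : ∀ y, y ≠ 0 → W12_D e (W12_D c (K a b)) y + W12_D e (W12_D a (K b c)) y +
          W12_D e (W12_D b (K c a)) y = ∑ i, ∑ j, (W12_D e (A a b c i j) y * K i j y +
            A a b c i j y * W12_D e (K i j) y) := by
        intro y hy
        rw [← W12_D_add e (hsm c a b) (hsm a b c) hy,
          ← W12_D_add e (W12_Sm_add (hsm c a b) (hsm a b c)) (hsm b c a) hy,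
          W12_D_congr e (fun z hz => heq z hz a b c) hy, W12_D_sum _ e hRs hy]
        refine Finset.sum_congr rfl fun i _ => ?_
        rw [W12_D_sum _ e (hR i) hy]
        refine Finset.sum_congr rfl fun j _ => ?_
        rw [W12_D_mul e (hA a b c i j) (hK i j) hy]
      have hR2 : ∀ i j, Sm (fun y => W12_D e (A a b c i j) y * K i j y +
            A a b c i j y * W12_D e (K i j) y) := fun i j =>
        W12_Sm_add (W12_Sm_mul (W12_Sm_D e (hA a b c i j)) (hK i j)) (W12_Sm_mul (hA a b c i j) (hsm e i j))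
      have e2 : ∀ y, y ≠ 0 → W12_D d (W12_D e (W12_D c (K a b))) y +
          W12_D d (W12_D e (W12_D a (K b c))) y + W12_D d (W12_D e (W12_D b (K c a))) y =
          ∑ i, ∑ j, (W12_D d (W12_D e (A a b c i j)) y * K i j y + W12_D e (A a b c i j) y * W12_D d (K i j) y +
            (W12_D d (A a b c i j) y * W12_D e (K i j) y + A a b c i j y * W12_D d (W12_D e (K i j)) y)) := by
        intro y hy
        rw [← W12_D_add d (hsm2 e c a b) (hsm2 e a b c) hy,
          ← W12_D_add d (W12_Sm_add (hsm2 e c a b) (hsm2 e a b c)) (hsm2 e b c a) hy,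
          W12_D_congr d e1 hy, W12_D_sum _ d (fun i => W12_Sm_sum _ (hR2 i)) hy]
        refine Finset.sum_congr rfl fun i _ => ?_
        rw [W12_D_sum _ d (hR2 i) hy]
        refine Finset.sum_congr rfl fun j _ => ?_
        rw [W12_D_add d (W12_Sm_mul (W12_Sm_D e (hA a b c i j)) (hK i j))
          (W12_Sm_mul (hA a b c i j) (hsm e i j)) hy,
          W12_D_mul d (W12_Sm_D e (hA a b c i j)) (hK i j) hy, W12_D_mul d (hA a b c i j) (hsm e i j) hy]
      refine W12_Bd_congr (g := fun y => ∑ i, ∑ j, (W12_D d (W12_D e (A a b c i j)) y * K i j y +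
        W12_D e (A a b c i j) y * W12_D d (K i j) y +
            (W12_D d (A a b c i j) y * W12_D e (K i j) y + A a b c i j y * W12_D d (W12_D e (K i j)) y)))
        (fun x hx => e2 x hx) ?_
      refine W12_Bd_sum _ fun i => W12_Bd_sum _ fun j => ?_
      have m1 : (fun y => W12_D d (W12_D e (A a b c i j)) y * K i j y) ∈ N :=
        W12_Bd_mul (W12_Sm_D d (W12_Sm_D e (hA a b c i j))).continuousOn (W12_B0 i j)
      have m2 : (fun y => W12_D e (A a b c i j) y * W12_D d (K i j) y) ∈ N :=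
        W12_Bd_mul (W12_Sm_D e (hA a b c i j)).continuousOn (W12_B1 d i j)
      have m3 : (fun y => W12_D d (A a b c i j) y * W12_D e (K i j) y) ∈ N :=
        W12_Bd_mul (W12_Sm_D d (hA a b c i j)).continuousOn (W12_B1 e i j)
      have m4 : (fun y => A a b c i j y * W12_D d (W12_D e (K i j)) y) ∈ N :=
        W12_Bd_mul (hA a b c i j).continuousOn (W12_B2 d e i j)
      exact N.add_mem (N.add_mem m1 m2) (N.add_mem m3 m4)
  exact (Submodule.Quotient.mk_eq_zero N).1 h0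

/-- all first frame derivatives of the jet are bounded by the jet. -/
theorem W12_dentry (hK : ∀ i j, Sm (K i j)) (hsym : ∀ x, x ≠ 0 → ∀ i j, K i j x = K j i x)
    (A : Fin 3 → Fin 3 → Fin 3 → Fin 3 → Fin 3 → E4 → ℝ) (hA : ∀ a b c i j, Sm (A a b c i j))
    (heq : ∀ x, x ≠ 0 → ∀ a b c, W12_D c (K a b) x + W12_D a (K b c) x
      + W12_D b (K c a) x = ∑ i, ∑ j, A a b c i j x * K i j x) (c : Fin 3) (s : W12_I) :
    W12_D c (W12_entry K s) ∈ W12_Bd (W12_U K) := by
  rcases s with ⟨i, j⟩ | ⟨k, i, j⟩ | ⟨l, k, i, j⟩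
  · exact W12_B1 c i j
  · exact W12_B2 c k i j
  · exact W12_third hK hsym A hA heq c l k i j

/-- Gronwall on a ball. -/
theorem W12_ball (hK : ∀ i j, Sm (K i j)) (hH : ∀ i j, Hom (K i j))
    (hD : ∀ c s, W12_D c (W12_entry K s) ∈ W12_Bd (W12_U K)) (q : E4) (r : ℝ) (hr : 0 < r)
    (hq : Metric.closedBall q r ⊆ {0}ᶜ) (h0 : W12_U K q = 0) (y : E4) (hy : y ∈ Metric.closedBall q r) :
    W12_U K y = 0 := by
  set C := Metric.closedBall q r with hC
  have hCc : IsCompact C := isCompact_closedBall q r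
  -- uniform constants
  have h1 : ∃ M : ℝ, 0 ≤ M ∧ ∀ c s, ∀ x ∈ C, |W12_D c (W12_entry K s) x| ≤ M * ‖W12_U K x‖ := by
    choose M hM hM2 using fun (p : Fin 3 × W12_I) => hD p.1 p.2 C hCc hq
    refine ⟨∑ p, M p, Finset.sum_nonneg fun p _ => hM p, fun c s x hx => ?_⟩
    refine (hM2 (c, s) x hx).trans ?_
    gcongr
    exact Finset.single_le_sum (f := M) (fun p _ => hM p) (Finset.mem_univ (c, s))
  obtain ⟨M, hM, hM2⟩ := h1
  have hinv : ∃ B : ℝ, 0 ≤ B ∧ ∀ x ∈ C, ‖x‖⁻¹ ≤ B := by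
    have hc : ContinuousOn (fun x : E4 => ‖x‖⁻¹) C :=
      continuousOn_id.norm.inv₀ fun x hx => norm_ne_zero_iff.2 (hq hx)
    obtain ⟨B, hB⟩ := hCc.exists_bound_of_continuousOn hc
    refine ⟨max B 0, le_max_right _ _, fun x hx => ?_⟩
    exact ((le_abs_self _).trans (hB x hx)).trans (le_max_left _ _)
  obtain ⟨B, hB, hB2⟩ := hinv
  -- bound of the full derivative
  have hfd : ∀ s, ∀ x ∈ C, ∀ w : E4, |fderiv ℝ (W12_entry K s) x w| ≤
      (3 * B * M) * ‖w‖ * ‖W12_U K x‖ := by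
    intro s x hx w
    have hx0 : x ≠ 0 := hq hx
    have hxn : 0 < ‖x‖ := norm_pos_iff.2 hx0
    have hrad := W12_radial (W12_entry_Sm hK s) (W12_entry_Hom hK hH s) hx0
    have e1 : ‖x‖ ^ 2 * fderiv ℝ (W12_entry K s) x w =
        ∑ c : Fin 3, (inner ℝ (J c x) w) * W12_D c (W12_entry K s) x := by
      rw [← smul_eq_mul, ← map_smul, W12_decomp, map_add, map_smul, hrad, smul_zero, zero_add, map_sum]
      refine Finset.sum_congr rfl fun c _ => ?_
      rw [map_smul, smul_eq_mul, W12_D_apply]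
    have hJn : ∀ c : Fin 3, ‖J c x‖ = ‖x‖ := by
      intro c
      have : ‖J c x‖ ^ 2 = ‖x‖ ^ 2 := by
        rw [EuclideanSpace.norm_sq_eq, EuclideanSpace.norm_sq_eq]
        simp only [W12_J_apply, Real.norm_eq_abs, sq_abs]
        fin_cases c <;> simp [Jm, Fin.sum_univ_succ] <;> ring
      exact (pow_left_inj₀ (norm_nonneg _) (norm_nonneg _) two_ne_zero).1 this
    have e2 : ‖x‖ ^ 2 * |fderiv ℝ (W12_entry K s) x w| ≤ 3 * (‖x‖ * ‖w‖ * (M * ‖W12_U K x‖)) := by
      rw [← abs_of_nonneg (by positivity : 0 ≤ ‖x‖ ^ 2), ← abs_mul, e1]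
      calc _ ≤ ∑ c : Fin 3, |(inner ℝ (J c x) w) * W12_D c (W12_entry K s) x| :=
            Finset.abs_sum_le_sum_abs _ _
        _ ≤ ∑ c : Fin 3, ‖x‖ * ‖w‖ * (M * ‖W12_U K x‖) := by
            gcongr with c
            rw [abs_mul]
            gcongr
            · rw [← hJn c]; exact abs_real_inner_le_norm _ _
            · exact hM2 c s x hx
        _ = _ := by simp
    have e3 : |fderiv ℝ (W12_entry K s) x w| ≤ 3 * (‖x‖⁻¹ * ‖w‖ * (M * ‖W12_U K x‖)) := by
      have : ‖x‖ ^ 2 * |fderiv ℝ (W12_entry K s) x w| ≤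
          ‖x‖ ^ 2 * (3 * (‖x‖⁻¹ * ‖w‖ * (M * ‖W12_U K x‖))) := by
        refine e2.trans (le_of_eq ?_)
        field_simp
      exact le_of_mul_le_mul_left this (by positivity)
    calc _ ≤ 3 * (‖x‖⁻¹ * ‖w‖ * (M * ‖W12_U K x‖)) := e3
      _ ≤ 3 * (B * ‖w‖ * (M * ‖W12_U K x‖)) := by gcongr; exact hB2 x hx
      _ = _ := by ring
  -- the segment
  set γ : ℝ → E4 := fun s => q + s • (y - q) with hγ
  have hγC : ∀ s ∈ Icc (0 : ℝ) 1, γ s ∈ C := by
    intro s hs
    rw [hC, Metric.mem_closedBall, dist_eq_norm] at hy ⊢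
    simp only [hγ]
    rw [add_sub_cancel_left, norm_smul, Real.norm_of_nonneg hs.1]
    calc s * ‖y - q‖ ≤ 1 * r := by gcongr; exact hs.2
      _ = r := one_mul r
  have hγd : ∀ s : ℝ, HasDerivAt γ (y - q) s := by
    intro s
    have h := ((hasDerivAt_id s).smul_const (y - q)).const_add q
    rw [one_smul] at h
    exact h
  have hder : ∀ s ∈ Icc (0 : ℝ) 1, HasDerivAt (fun s => W12_U K (γ s))
      (fun i => fderiv ℝ (W12_entry K i) (γ s) (y - q)) s := by
    intro s hs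
    rw [hasDerivAt_pi]
    intro i
    exact (W12_Sm_diff (W12_entry_Sm hK i) (hq (hγC s hs))).hasFDerivAt.comp_hasDerivAt s (hγd s)
  have hg := norm_le_gronwallBound_of_norm_deriv_right_le (f := fun s => W12_U K (γ s))
    (f' := fun s => fun i => fderiv ℝ (W12_entry K i) (γ s) (y - q)) (δ := 0)
    (K := 3 * B * M * ‖y - q‖) (ε := 0) (a := 0) (b := 1)
    (fun s hs => (hder s hs).continuousAt.continuousWithinAt)
    (fun s hs => (hder s ⟨hs.1, hs.2.le⟩).hasDerivWithinAt)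
    (by
      have : γ 0 = q := by simp [hγ]
      simp only [this, h0, norm_zero, le_refl])
    (by
      intro s hs
      rw [add_zero]
      rw [pi_norm_le_iff_of_nonneg (by positivity)]
      intro i
      have := hfd i (γ s) (hγC s ⟨hs.1, hs.2.le⟩) (y - q)
      rw [Real.norm_eq_abs]
      exact this)
  have h2 := hg 1 ⟨zero_le_one, le_refl _⟩
  rw [gronwallBound_ε0_δ0] at h2
  have h3 : γ 1 = y := by simp [hγ]
  have h4 : ‖W12_U K (γ 1)‖ ≤ 0 := h2
  rw [h3] at h4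
  exact norm_le_zero_iff.1 h4

theorem W12_conn (hK : ∀ i j, Sm (K i j)) (hH : ∀ i j, Hom (K i j))
    (hD : ∀ c s, W12_D c (W12_entry K s) ∈ W12_Bd (W12_U K)) (p : E4) (hp : p ≠ 0)
    (h0 : W12_U K p = 0) : ∀ x, x ≠ 0 → W12_U K x = 0 := by
  set Z : Set E4 := {x | x ≠ 0 ∧ W12_U K x = 0} with hZ
  have hopen : IsOpen Z := by
    rw [Metric.isOpen_iff]
    rintro q ⟨hq0, hq⟩
    obtain ⟨r, hr, hrs⟩ := Metric.nhds_basis_closedBall.mem_iff.1 (W12_open.mem_nhds hq0)
    refine ⟨r, hr, fun y hy => ?_⟩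
    have hy' := Metric.ball_subset_closedBall hy
    exact ⟨hrs hy', W12_ball hK hH hD q r hr hrs hq y hy'⟩
  have hconn : IsPreconnected ({0}ᶜ : Set E4) := by
    apply (isConnected_compl_singleton_of_one_lt_rank _ 0).isPreconnected
    rw [← Module.finrank_eq_rank, finrank_euclideanSpace]
    norm_num
  have hcont : ContinuousOn (W12_U K) {0}ᶜ :=
    continuousOn_pi.2 fun i => (W12_entry_Sm hK i).continuousOn
  have hsub : ({0}ᶜ : Set E4) ⊆ Z := by
    apply hconn.subset_of_closure_inter_subset hopen ⟨p, hp, hp, h0⟩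
    rintro x ⟨hx, hx0⟩
    refine ⟨hx0, ?_⟩
    have h1 : ContinuousAt (W12_U K) x := hcont.continuousAt (W12_open.mem_nhds hx0)
    rw [mem_closure_iff_frequently] at hx
    by_contra hne
    have : ∀ᶠ y in 𝓝 x, W12_U K y ≠ 0 := h1.eventually_ne hne
    exact hx (this.mono fun y hy h => hy h.2)
  intro x hx
  exact (hsub hx).2

end main

theorem W12_uc (K : E4 → M3) (hK : ∀ i j, Sm (fun x => K x i j)) (hH : Hom K)
    (hsym : ∀ x, x ≠ 0 → ∀ i j, K x i j = K x j i)
    (A : Fin 3 → Fin 3 → Fin 3 → Fin 3 → Fin 3 → E4 → ℝ) (hA : ∀ a b c i j, Sm (A a b c i j))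
    (heq : ∀ x, x ≠ 0 → ∀ a b c, Dv (fun y => K y a b) (ee c) x + Dv (fun y => K y b c) (ee a) x
      + Dv (fun y => K y c a) (ee b) x = ∑ i, ∑ j, A a b c i j x * K x i j)
    (p : E4) (hp : p ≠ 0) (h0 : K p = 0)
    (h1 : ∀ i j k, Dv (fun y => K y i j) (ee k) p = 0)
    (h2 : ∀ i j k l, Dv (fun y => Dv (fun z => K z i j) (ee k) y) (ee l) p = 0) :
    ∀ x, x ≠ 0 → K x = 0 := by
  set K' : Fin 3 → Fin 3 → E4 → ℝ := fun i j x => K x i j with hK'
  have hH' : ∀ i j, Hom (K' i j) := fun i j t ht x => by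
    simp only [hK']
    rw [hH t ht x]
  have hD : ∀ c s, W12_D c (W12_entry K' s) ∈ W12_Bd (W12_U K') :=
    W12_dentry hK (fun x hx i j => hsym x hx i j) A hA (fun x hx a b c => heq x hx a b c)
  have hU : W12_U K' p = 0 := by
    funext s
    rcases s with ⟨i, j⟩ | ⟨k, i, j⟩ | ⟨l, k, i, j⟩
    · change K p i j = 0
      rw [h0]; rfl
    · exact h1 i j k
    · exact h2 i j k l
  intro x hx
  have := W12_conn hK hH' hD p hp hU x hx
  ext i j
  exact congrFun this (Sum.inl (i, j))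

end Pool.Agent.helper68.B2
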