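import Pool.Agent.helper68.B2.Defs
import Pool.Agent.helper58.B2.W5

/-! # b2:W6  shape invariance along a closed form defined up to sign -/

set_option autoImplicit false

namespace Pool.Agent.helper68.B2

open scoped ContDiff Topology Matrix
open Matrix Set Filter

/-- `F` carries a closed 1-form `om` (defined up to sign, `om x w` belongs to the root `w`) with
`om(T) = 1`, and `dμ` is a multiple of `om` -/
structure SForm {E : Type*} [NormedAddCommGroup E] [NormedSpace ℝ E] (F : SField E)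
    (μ : E → ℝ) where
  om : E → E → E →L[ℝ] ℝ
  odd : ∀ x ∈ F.V, ∀ w, F.Rt x w → om x (-w) = -om x w
  one : ∀ x ∈ F.V, ∀ w, F.Rt x w → om x w w = 1
  prim : ∀ x₀ ∈ F.V, ∃ U ∈ 𝓝 x₀, U ⊆ F.V ∧ ∃ (T : E → E) (u : E → ℝ), ContDiffOn ℝ 1 T U ∧
    (∀ x ∈ U, F.Rt x (T x)) ∧ ContinuousOn (fun x => om x (T x)) U ∧
    ∀ x ∈ U, HasFDerivAt u (om x (T x)) x
  mu : ∀ x ∈ F.V, ∀ w, F.Rt x w → ∃ c : ℝ, HasFDerivAt μ (c • om x w) x

/-- a function whose differential is a multiple of `du` is locally a function of `u` -/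
theorem W6_level {E : Type*} [NormedAddCommGroup E] [NormedSpace ℝ E] [FiniteDimensional ℝ E]
    (u μ : E → ℝ) (u' : E → E →L[ℝ] ℝ) (x₀ : E) (N : Set E) (hN : N ∈ 𝓝 x₀)
    (hu : ∀ x ∈ N, HasFDerivAt u (u' x) x) (hc : ContinuousOn u' N) (hne : u' x₀ ≠ 0)
    (hμ : ∀ x ∈ N, ∃ c : ℝ, HasFDerivAt μ (c • u' x) x) :
    ∀ᶠ z in 𝓝 x₀, u z = u x₀ → μ z = μ x₀ := by
  have : CompleteSpace E := FiniteDimensional.complete ℝ E
  obtain ⟨e, he⟩ : ∃ e : E, u' x₀ e = 1 := by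
    obtain ⟨v, hv⟩ : ∃ v, u' x₀ v ≠ 0 := by
      by_contra h
      push Not at h
      exact hne (ContinuousLinearMap.ext h)
    refine ⟨(u' x₀ v)⁻¹ • v, ?_⟩
    rw [map_smul, smul_eq_mul, inv_mul_cancel₀ hv]
  set l := u' x₀ with hl
  have hx₀N : x₀ ∈ N := mem_of_mem_nhds hN
  have hcd : ContDiffAt ℝ 1 u x₀ := contDiffAt_one_iff.2 ⟨u', N, hN, hc, hu⟩
  set Ψ : E → E := fun x => x + (u x - l x) • e with hΨ
  have hΨc : ContDiffAt ℝ 1 Ψ x₀ :=
    contDiffAt_id.add ((hcd.sub l.contDiff.contDiffAt).smul contDiffAt_const)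
  have hΨd : HasFDerivAt Ψ ((ContinuousLinearEquiv.refl ℝ E : E ≃L[ℝ] E) : E →L[ℝ] E) x₀ := by
    have h1 : HasFDerivAt Ψ (ContinuousLinearMap.id ℝ E + (l - l).smulRight e) x₀ :=
      (hasFDerivAt_id x₀).add (((hu x₀ hx₀N).sub l.hasFDerivAt).smul_const e)
    have h2 : ContinuousLinearMap.id ℝ E + (l - l).smulRight e =
        ((ContinuousLinearEquiv.refl ℝ E : E ≃L[ℝ] E) : E →L[ℝ] E) := by
      ext x; simp
    rwa [h2] at h1
  have hlΨ : ∀ x, l (Ψ x) = u x := by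
    intro x
    simp only [hΨ]
    rw [map_add, map_smul, he, smul_eq_mul, mul_one]
    ring
  set g := hΨc.localInverse hΨd one_ne_zero with hg
  have hgc : ContDiffAt ℝ 1 g (Ψ x₀) := hΨc.to_localInverse hΨd one_ne_zero
  have hgx : g (Ψ x₀) = x₀ := hΨc.localInverse_apply_image hΨd one_ne_zero
  have hstr := hΨc.hasStrictFDerivAt' hΨd one_ne_zero
  have h1 : ∀ᶠ w in 𝓝 (Ψ x₀), DifferentiableAt ℝ g w :=
    (hgc.eventually (by simp)).mono fun w hw => hw.differentiableAt one_ne_zero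
  have h2 : ∀ᶠ w in 𝓝 (Ψ x₀), Ψ (g w) = w := hstr.eventually_right_inverse
  have h3 : ∀ᶠ w in 𝓝 (Ψ x₀), g w ∈ N := by
    have : Tendsto g (𝓝 (Ψ x₀)) (𝓝 x₀) := by
      have := hgc.continuousAt.tendsto
      rwa [hgx] at this
    exact this hN
  obtain ⟨ρ, hρ, hball⟩ := Metric.eventually_nhds_iff_ball.1 (h1.and (h2.and h3))
  have h4 : ∀ᶠ z in 𝓝 x₀, g (Ψ z) = z := hstr.eventually_left_inverse
  have h5 : ∀ᶠ z in 𝓝 x₀, Ψ z ∈ Metric.ball (Ψ x₀) ρ :=
    hΨc.continuousAt.tendsto (Metric.ball_mem_nhds _ hρ)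
  filter_upwards [h4, h5] with z hz4 hz5 huz
  set w : ℝ → E := fun s => Ψ x₀ + s • (Ψ z - Ψ x₀) with hw
  have hwB : ∀ s ∈ Icc (0 : ℝ) 1, w s ∈ Metric.ball (Ψ x₀) ρ := by
    intro s hs
    rw [Metric.mem_ball, dist_eq_norm] at hz5 ⊢
    simp only [hw]
    rw [add_sub_cancel_left, norm_smul, Real.norm_of_nonneg hs.1]
    calc s * ‖Ψ z - Ψ x₀‖ ≤ 1 * ‖Ψ z - Ψ x₀‖ := by gcongr; exact hs.2
      _ < ρ := by rwa [one_mul]
  have hwd : ∀ s, HasDerivAt w (Ψ z - Ψ x₀) s := by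
    intro s
    have h := ((hasDerivAt_id s).smul_const (Ψ z - Ψ x₀)).const_add (Ψ x₀)
    rw [one_smul] at h
    exact h
  have hlw : ∀ s, l (w s) = u x₀ := by
    intro s
    simp only [hw]
    rw [map_add, map_smul, map_sub, hlΨ, hlΨ, huz]
    simp
  have hder : ∀ s ∈ Icc (0 : ℝ) 1, HasDerivAt (fun s => μ (g (w s))) 0 s := by
    intro s hs
    obtain ⟨hd, hr, hNs⟩ := hball (w s) (hwB s hs)
    have hp : HasDerivAt (fun s => g (w s)) (fderiv ℝ g (w s) (Ψ z - Ψ x₀)) s :=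
      hd.hasFDerivAt.comp_hasDerivAt s (hwd s)
    have hup : HasDerivAt (fun s => u (g (w s))) (u' (g (w s)) (fderiv ℝ g (w s) (Ψ z - Ψ x₀))) s :=
      (hu _ hNs).comp_hasDerivAt s hp
    have hup0 : HasDerivAt (fun s => u (g (w s))) 0 s := by
      have : (fun s => u (g (w s))) =ᶠ[𝓝 s] fun _ => u x₀ := by
        have hcw : ContinuousAt w s := (hwd s).continuousAt
        filter_upwards [hcw (Metric.isOpen_ball.mem_nhds (hwB s hs))] with s' hs'
        rw [← hlΨ, (hball _ hs').2.1, hlw]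
      exact (hasDerivAt_const s (u x₀)).congr_of_eventuallyEq this
    have h0 := hup.unique hup0
    obtain ⟨c, hcμ⟩ := hμ _ hNs
    have := hcμ.comp_hasDerivAt s hp
    rw [FunLike.coe_smul, Pi.smul_apply, h0, smul_zero] at this
    exact this
  have hconst := constant_of_has_deriv_right_zero (f := fun s => μ (g (w s))) (a := 0) (b := 1)
    (fun s hs => (hder s hs).continuousAt.continuousWithinAt)
    (fun s hs => (hder s ⟨hs.1, hs.2.le⟩).hasDerivWithinAt) 1 ⟨zero_le_one, le_rfl⟩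
  have e1 : w 1 = Ψ z := by simp [hw]
  have e0 : w 0 = Ψ x₀ := by simp [hw]
  simp only [e1, e0, hz4, hgx] at hconst
  exact hconst

section box
variable {E : Type*} [NormedAddCommGroup E] [NormedSpace ℝ E]

/-- a ball with a section `T` and a primitive `u`. -/
structure W6_Box (F : SField E) (om : E → E → E →L[ℝ] ℝ) (x₀ : E) (r : ℝ) (L : NNReal) (M : ℝ)
    (T : E → E) (u : E → ℝ) : Prop where
  sub : Metric.ball x₀ r ⊆ F.V
  rt : ∀ x ∈ Metric.ball x₀ r, ∀ w, F.Rt x w ↔ (w = T x ∨ w = -T x)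
  ne : ∀ x ∈ Metric.ball x₀ r, T x ≠ 0
  lip : LipschitzOnWith L T (Metric.ball x₀ r)
  bd : ∀ x ∈ Metric.ball x₀ r, ‖T x‖ ≤ M
  omc : ContinuousOn (fun x => om x (T x)) (Metric.ball x₀ r)
  prim : ∀ x ∈ Metric.ball x₀ r, HasFDerivAt u (om x (T x)) x
  one : ∀ x ∈ Metric.ball x₀ r, om x (T x) (T x) = 1

variable {F : SField E} {om : E → E → E →L[ℝ] ℝ} {x₀ : E} {r : ℝ} {L : NNReal} {M : ℝ}
  {T : E → E} {u : E → ℝ}

theorem W6_Box.neg (B : W6_Box F om x₀ r L M T u)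
    (hodd : ∀ x ∈ F.V, ∀ w, F.Rt x w → om x (-w) = -om x w) :
    W6_Box F om x₀ r L M (fun x => -T x) (fun x => -u x) := by
  have hodd' : ∀ x ∈ Metric.ball x₀ r, om x (-T x) = -om x (T x) := fun x hx =>
    hodd x (B.sub hx) _ ((B.rt x hx _).2 (Or.inl rfl))
  refine ⟨B.sub, ?_, ?_, ?_, ?_, ?_, ?_, ?_⟩
  · intro x hx w
    rw [B.rt x hx, neg_neg]
    exact or_comm
  · intro x hx
    exact neg_ne_zero.2 (B.ne x hx)
  · exact B.lip.neg
  · intro x hx
    rw [norm_neg]; exact B.bd x hx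
  · exact B.omc.neg.congr fun x hx => hodd' x hx
  · intro x hx
    rw [hodd' x hx]
    exact (B.prim x hx).neg
  · intro x hx
    rw [hodd' x hx, map_neg, FunLike.coe_neg, Pi.neg_apply, neg_neg]
    exact B.one x hx

theorem W6_Box.mono (B : W6_Box F om x₀ r L M T u) {x₁ : E} {r₁ : ℝ}
    (h : Metric.ball x₁ r₁ ⊆ Metric.ball x₀ r) : W6_Box F om x₁ r₁ L M T u :=
  ⟨h.trans B.sub, fun x hx => B.rt x (h hx), fun x hx => B.ne x (h hx), B.lip.mono h,
    fun x hx => B.bd x (h hx), B.omc.mono h, fun x hx => B.prim x (h hx), fun x hx => B.one x (h hx)⟩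

theorem W6_exists_box {μ : E → ℝ} (hF : SForm F μ) (hx : x₀ ∈ F.V) :
    ∃ (r : ℝ) (L : NNReal) (M : ℝ) (T : E → E) (u : E → ℝ), 0 < r ∧ 0 ≤ M ∧
      W6_Box F hF.om x₀ r L M T u := by
  obtain ⟨U₁, hU₁, hU₁V, T, u, hT, hTr, hom, hu⟩ := hF.prim x₀ hx
  obtain ⟨U₂, hU₂, -, T₂, -, hT₂⟩ := F.sec x₀ hx
  have hx1 : x₀ ∈ U₁ := mem_of_mem_nhds hU₁
  have hTc : ContDiffAt ℝ 1 T x₀ := hT.contDiffAt hU₁
  obtain ⟨L, U₃, hU₃, hL⟩ := hTc.exists_lipschitzOnWith
  have hbd : ∀ᶠ x in 𝓝 x₀, ‖T x‖ < ‖T x₀‖ + 1 :=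
    hTc.continuousAt.norm.eventually (gt_mem_nhds (lt_add_one _))
  obtain ⟨r, hr, hball⟩ := Metric.mem_nhds_iff.1
    (Filter.inter_mem (Filter.inter_mem hU₁ hU₂) (Filter.inter_mem hU₃ hbd))
  have hpm : ∀ x ∈ Metric.ball x₀ r, T x = T₂ x ∨ T x = -T₂ x := fun x hx =>
    ((hT₂ x (hball hx).1.2).2 _).1 (hTr x (hball hx).1.1)
  refine ⟨r, L, ‖T x₀‖ + 1, T, u, hr, by positivity, ?_⟩
  refine ⟨fun x hx => hU₁V (hball hx).1.1, ?_, ?_, hL.mono fun x hx => (hball hx).2.1, ?_,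
    hom.mono fun x hx => (hball hx).1.1, fun x hx => hu x (hball hx).1.1, ?_⟩
  · intro x hx w
    rw [(hT₂ x (hball hx).1.2).2]
    rcases hpm x hx with h | h
    · rw [h]
    · rw [h, neg_neg]; exact or_comm
  · intro x hx
    rcases hpm x hx with h | h
    · rw [h]; exact (hT₂ x (hball hx).1.2).1
    · rw [h]; exact neg_ne_zero.2 (hT₂ x (hball hx).1.2).1
  · intro x hx
    exact (show ‖T x‖ < ‖T x₀‖ + 1 from (hball hx).2.2).le
  · intro x hx
    exact hF.one x (hU₁V (hball hx).1.1) _ (hTr x (hball hx).1.1)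

/-- forward short time behaviour of a curve in a box. -/
theorem W6_forward (B : W6_Box F om x₀ r L M T u) (hM : 0 ≤ M) {τ : ℝ} (hτ0 : 0 ≤ τ)
    (hτ : (M + 1) * τ ≤ r / 2) {γ v : ℝ → E} (h : F.IsCurve γ v univ)
    (h0 : γ 0 ∈ Metric.ball x₀ (r / 2)) (hv0 : v 0 = T (γ 0)) :
    ∀ s ∈ Icc (0 : ℝ) τ, γ s ∈ Metric.ball x₀ r ∧ v s = T (γ s) ∧ u (γ s) = u (γ 0) + s := by
  have hd : ∀ s, HasDerivAt γ (v s) s := fun s =>
    (h.2 s (mem_univ s)).2.2.hasDerivAt (by simp)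
  have hγc : Continuous γ := continuous_iff_continuousAt.2 fun s => (hd s).continuousAt
  have hvc : Continuous v := continuousOn_univ.1 h.1
  -- containment
  have hin : ∀ s ∈ Icc (0 : ℝ) τ, γ s ∈ Metric.ball x₀ r := by
    have key := image_norm_le_of_norm_deriv_right_lt_deriv_boundary' (f := fun s => γ s - γ 0)
      (f' := v) (a := 0) (b := τ) (B := fun s => (M + 1) * s) (B' := fun _ => M + 1)
      (hγc.sub continuous_const).continuousOn
      (fun s _ => ((hd s).sub_const _).hasDerivWithinAt) (by simp)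
      (continuous_const.mul continuous_id).continuousOn
      (fun s _ => by
        have := ((hasDerivAt_id s).const_mul (M + 1)).hasDerivWithinAt (s := Ici s)
        rwa [mul_one] at this)
      (fun s hs hs2 => by
        have hmem : γ s ∈ Metric.ball x₀ r := by
          rw [Metric.mem_ball, dist_eq_norm] at h0 ⊢
          have e1 : ‖γ s - x₀‖ ≤ ‖γ s - γ 0‖ + ‖γ 0 - x₀‖ := by
            rw [← sub_add_sub_cancel]; exact norm_add_le _ _
          have e2 : ‖γ s - γ 0‖ = (M + 1) * s := hs2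
          have e3 : (M + 1) * s ≤ (M + 1) * τ := by gcongr; exact hs.2.le
          linarith
        have hrt := (h.2 s (mem_univ s)).2.1
        have : ‖v s‖ ≤ M := by
          rcases (B.rt _ hmem _).1 hrt with h1 | h1
          · rw [h1]; exact B.bd _ hmem
          · rw [h1, norm_neg]; exact B.bd _ hmem
        linarith)
    intro s hs
    have e0 := key hs
    rw [Metric.mem_ball, dist_eq_norm] at h0 ⊢
    have e1 : ‖γ s - x₀‖ ≤ ‖γ s - γ 0‖ + ‖γ 0 - x₀‖ := by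
      rw [← sub_add_sub_cancel]; exact norm_add_le _ _
    have e3 : (M + 1) * s ≤ (M + 1) * τ := by gcongr; exact hs.2
    have e0' : ‖γ s - γ 0‖ ≤ (M + 1) * s := e0
    linarith
  -- sign
  have hTγ : ContinuousOn (fun s => T (γ s)) (Icc 0 τ) :=
    B.lip.continuousOn.comp hγc.continuousOn fun s hs => hin s hs
  have hpm : ∀ s ∈ Icc (0 : ℝ) τ, v s = T (γ s) ∨ v s = -T (γ s) := fun s hs =>
    (B.rt _ (hin s hs) _).1 (h.2 s (mem_univ s)).2.1
  have hsign : ∀ s ∈ Icc (0 : ℝ) τ, v s = T (γ s) := by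
    intro s hs
    have hind := isPreconnected_Icc.induction₂ (s := Icc (0 : ℝ) τ)
      (fun a b => v a = T (γ a) ↔ v b = T (γ b)) (by
        intro a ha
        have hTa : T (γ a) ≠ 0 := B.ne _ (hin a ha)
        have c1 : ContinuousWithinAt (fun s => v s + T (γ s)) (Icc 0 τ) a :=
          hvc.continuousWithinAt.add (hTγ a ha)
        have c2 : ContinuousWithinAt (fun s => v s - T (γ s)) (Icc 0 τ) a :=
          hvc.continuousWithinAt.sub (hTγ a ha)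
        rcases hpm a ha with h1 | h1
        · have hne : v a + T (γ a) ≠ 0 := by
            rw [h1, ← two_smul ℝ]
            exact smul_ne_zero two_ne_zero hTa
          filter_upwards [c1.eventually_ne hne, self_mem_nhdsWithin] with b hb hb2
          rcases hpm b hb2 with h2 | h2
          · exact ⟨fun _ => h2, fun _ => h1⟩
          · exact absurd (by rw [h2]; simp) hb
        · have hne : v a - T (γ a) ≠ 0 := by
            rw [h1, ← neg_add', ← two_smul ℝ]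
            exact neg_ne_zero.2 (smul_ne_zero two_ne_zero hTa)
          filter_upwards [c2.eventually_ne hne, self_mem_nhdsWithin] with b hb hb2
          have hb3 : v b ≠ T (γ b) := fun h3 => hb (by rw [h3]; simp)
          have ha3 : v a ≠ T (γ a) := fun h3 => hne (by rw [h3]; simp)
          exact ⟨fun h3 => absurd h3 ha3, fun h3 => absurd h3 hb3⟩)
      (fun a b c _ _ _ h1 h2 => h1.trans h2) (fun a b _ _ h1 => h1.symm)
      (left_mem_Icc.2 hτ0) hs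
    exact hind.1 hv0
  -- primitive
  have hprim : ∀ s ∈ Icc (0 : ℝ) τ, HasDerivAt (fun s => u (γ s) - s) 0 s := by
    intro s hs
    have h1 := ((B.prim _ (hin s hs)).comp_hasDerivAt s (hd s)).sub (hasDerivAt_id s)
    have h2 : om (γ s) (T (γ s)) (v s) - 1 = 0 := by
      rw [hsign s hs, B.one _ (hin s hs), sub_self]
    rw [h2] at h1
    exact h1
  intro s hs
  refine ⟨hin s hs, hsign s hs, ?_⟩
  have hconst := constant_of_has_deriv_right_zero (f := fun s => u (γ s) - s) (a := 0) (b := τ)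
    (fun s hs => (hprim s hs).continuousAt.continuousWithinAt)
    (fun s hs => (hprim s ⟨hs.1, hs.2.le⟩).hasDerivWithinAt) s hs
  linarith

/-- two sided short time behaviour. -/
theorem W6_short (B : W6_Box F om x₀ r L M T u)
    (hodd : ∀ x ∈ F.V, ∀ w, F.Rt x w → om x (-w) = -om x w) (hM : 0 ≤ M) {τ : ℝ} (hτ0 : 0 ≤ τ)
    (hτ : (M + 1) * τ ≤ r / 2) {γ v : ℝ → E} (h : F.IsCurve γ v univ)
    (h0 : γ 0 ∈ Metric.ball x₀ (r / 2)) (hv0 : v 0 = T (γ 0)) :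
    ∀ s, |s| ≤ τ → γ s ∈ Metric.ball x₀ r ∧ v s = T (γ s) ∧ u (γ s) = u (γ 0) + s := by
  intro s hs
  rcases le_total 0 s with h1 | h1
  · rw [abs_of_nonneg h1] at hs
    exact W6_forward B hM hτ0 hτ h h0 hv0 s ⟨h1, hs⟩
  · rw [abs_of_nonpos h1] at hs
    have hrev : F.IsCurve (fun t => γ (-t)) (fun t => -v (-t)) univ := by
      have := W5_reverse h
      simpa using this
    have h2 := W6_forward (B.neg hodd) hM hτ0 hτ hrev (by simpa using h0) (by simp [hv0]) (-s)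
      ⟨by linarith, hs⟩
    simp only [neg_neg, neg_zero, neg_inj] at h2
    refine ⟨h2.1, h2.2.1, ?_⟩
    linarith [h2.2.2]

/-- two curves in a box. -/
theorem W6_two (B : W6_Box F om x₀ r L M T u)
    (hodd : ∀ x ∈ F.V, ∀ w, F.Rt x w → om x (-w) = -om x w) (hM : 0 ≤ M) {τ : ℝ} (hτ0 : 0 ≤ τ)
    (hτ : (M + 1) * τ ≤ r / 2) {γ v γ' v' : ℝ → E} (h : F.IsCurve γ v univ)
    (h' : F.IsCurve γ' v' univ)
    (h0 : γ 0 ∈ Metric.ball x₀ (r / 2)) (hv0 : v 0 = T (γ 0))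
    (h0' : γ' 0 ∈ Metric.ball x₀ (r / 2)) (hv0' : v' 0 = T (γ' 0)) :
    ∀ s, |s| ≤ τ → dist (γ s) (γ' s) ≤ dist (γ 0) (γ' 0) * Real.exp (L * τ) := by
  have main : ∀ (T : E → E) (u : E → ℝ), W6_Box F om x₀ r L M T u → ∀ γ v γ' v' : ℝ → E,
      F.IsCurve γ v univ → F.IsCurve γ' v' univ → γ 0 ∈ Metric.ball x₀ (r / 2) → v 0 = T (γ 0) →
      γ' 0 ∈ Metric.ball x₀ (r / 2) → v' 0 = T (γ' 0) → ∀ s ∈ Icc (0 : ℝ) τ,
      dist (γ s) (γ' s) ≤ dist (γ 0) (γ' 0) * Real.exp (L * τ) := by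
    intro T u B γ v γ' v' h h' h0 hv0 h0' hv0' s hs
    have hd : ∀ s, HasDerivAt γ (v s) s := fun s => (h.2 s (mem_univ s)).2.2.hasDerivAt (by simp)
    have hd' : ∀ s, HasDerivAt γ' (v' s) s := fun s => (h'.2 s (mem_univ s)).2.2.hasDerivAt (by simp)
    have f1 := W6_forward B hM hτ0 hτ h h0 hv0
    have f2 := W6_forward B hM hτ0 hτ h' h0' hv0'
    have := dist_le_of_trajectories_ODE_of_mem (v := fun _ => T) (s := fun _ => Metric.ball x₀ r)
      (K := L) (f := γ) (g := γ') (a := 0) (b := τ) (δ := dist (γ 0) (γ' 0))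
      (fun t _ => B.lip)
      (fun t _ => (hd t).continuousAt.continuousWithinAt)
      (fun t ht => by
        have := (hd t).hasDerivWithinAt (s := Ici t)
        rwa [(f1 t ⟨ht.1, ht.2.le⟩).2.1] at this)
      (fun t ht => (f1 t ⟨ht.1, ht.2.le⟩).1)
      (fun t _ => (hd' t).continuousAt.continuousWithinAt)
      (fun t ht => by
        have := (hd' t).hasDerivWithinAt (s := Ici t)
        rwa [(f2 t ⟨ht.1, ht.2.le⟩).2.1] at this)
      (fun t ht => (f2 t ⟨ht.1, ht.2.le⟩).1) le_rfl s hs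
    refine this.trans ?_
    rw [sub_zero]
    gcongr
    exact hs.2
  intro s hs
  rcases le_total 0 s with h1 | h1
  · rw [abs_of_nonneg h1] at hs
    exact main T u B γ v γ' v' h h' h0 hv0 h0' hv0' s ⟨h1, hs⟩
  · rw [abs_of_nonpos h1] at hs
    have hrev : F.IsCurve (fun t => γ (-t)) (fun t => -v (-t)) univ := by
      have := W5_reverse h
      simpa using this
    have hrev' : F.IsCurve (fun t => γ' (-t)) (fun t => -v' (-t)) univ := by
      have := W5_reverse h'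
      simpa using this
    have h2 := main _ _ (B.neg hodd) _ _ _ _ hrev hrev' (by simpa using h0) (by simp [hv0])
      (by simpa using h0') (by simp [hv0']) (-s) ⟨by linarith, hs⟩
    simpa using h2

theorem W6_shift {γ v : ℝ → E} (h : F.IsCurve γ v univ) (c : ℝ) :
    F.IsCurve (fun s => γ (c + s)) (fun s => v (c + s)) univ := by
  have h1 := W5_shift h (-c)
  have e : ∀ s : ℝ, s - -c = c + s := fun s => by ring
  simp only [e] at h1
  exact W5_mono h1 fun s _ => mem_univ _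

theorem W6_rev {γ v : ℝ → E} (h : F.IsCurve γ v univ) :
    F.IsCurve (fun s => γ (-s)) (fun s => -v (-s)) univ := by
  have := W5_reverse h
  simpa using this

theorem W6_cont {γ v : ℝ → E} (h : F.IsCurve γ v univ) : Continuous γ :=
  continuous_iff_continuousAt.2 fun s =>
    ((h.2 s (mem_univ s)).2.2.hasDerivAt (by simp)).continuousAt

theorem W6_om_ne (B : W6_Box F om x₀ r L M T u) {x : E} (hx : x ∈ Metric.ball x₀ r) :
    om x (T x) ≠ 0 := by
  intro h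
  have := B.one x hx
  rw [h] at this
  simp at this

/-- the level sets do not depend on the box. -/
theorem W6_transfer [FiniteDimensional ℝ E] (B : W6_Box F om x₀ r L M T u)
    (hodd : ∀ x ∈ F.V, ∀ w, F.Rt x w → om x (-w) = -om x w)
    {x₀' : E} {r' : ℝ} {L' : NNReal} {M' : ℝ} {T' : E → E} {u' : E → ℝ}
    (B' : W6_Box F om x₀' r' L' M' T' u') {x : E} (hx : x ∈ Metric.ball x₀ r)
    (hx' : x ∈ Metric.ball x₀' r') : ∀ᶠ z in 𝓝 x, u z = u x → u' z = u' x := by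
  have hN : Metric.ball x₀ r ∩ Metric.ball x₀' r' ∈ 𝓝 x :=
    Filter.inter_mem (Metric.isOpen_ball.mem_nhds hx) (Metric.isOpen_ball.mem_nhds hx')
  refine W6_level u u' (fun z => om z (T z)) x _ hN (fun z hz => B.prim z hz.1)
    (B.omc.mono inter_subset_left) (W6_om_ne B hx) ?_
  intro z hz
  have h1 := (B.rt z hz.1 (T' z)).1 ((B'.rt z hz.2 _).2 (Or.inl rfl))
  have h2 := B'.prim z hz.2
  rcases h1 with h1 | h1
  · refine ⟨1, ?_⟩
    rw [one_smul, ← h1]; exact h2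
  · refine ⟨-1, ?_⟩
    rw [h1, hodd z (B.sub hz.1) _ ((B.rt z hz.1 _).2 (Or.inl rfl))] at h2
    have h3 : (-1 : ℝ) • om z (T z) = -om z (T z) := by
      ext v; simp
    rw [h3]; exact h2

/-- the curves `Γ y`, shifted by `b y`, are close to `γ₁` at time `t` and on the same level. -/
def W6_P (F : SField E) (om : E → E → E →L[ℝ] ℝ) (γ₁ v₁ : ℝ → E) (Γ N : E → ℝ → E) (b : E → ℝ)
    (y₁ : E) (t : ℝ) : Prop :=
  Tendsto (fun y => Γ y (t + b y)) (𝓝 y₁) (𝓝 (γ₁ t)) ∧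
  Tendsto (fun y => N y (t + b y)) (𝓝 y₁) (𝓝 (v₁ t)) ∧
  ∀ (x₀ : E) (r : ℝ) (L : NNReal) (M : ℝ) (T : E → E) (u : E → ℝ), W6_Box F om x₀ r L M T u →
    γ₁ t ∈ Metric.ball x₀ r → ∀ᶠ y in 𝓝 y₁, u (Γ y (t + b y)) = u (γ₁ t)

theorem W6_step [FiniteDimensional ℝ E] (B : W6_Box F om x₀ r L M T u)
    (hodd : ∀ x ∈ F.V, ∀ w, F.Rt x w → om x (-w) = -om x w) (hr : 0 < r) (hM : 0 ≤ M)
    {τ : ℝ} (hτ0 : 0 ≤ τ) (hτ : (M + 1) * τ ≤ r / 2) {γ₁ v₁ : ℝ → E} {Γ N : E → ℝ → E} {b : E → ℝ}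
    {y₁ : E} (h₁ : F.IsCurve γ₁ v₁ univ) (hΓ : ∀ᶠ y in 𝓝 y₁, F.IsCurve (Γ y) (N y) univ)
    {t t' : ℝ} (ht : γ₁ t ∈ Metric.ball x₀ (r / 2)) (htt : |t' - t| ≤ τ)
    (hP : W6_P F om γ₁ v₁ Γ N b y₁ t) : W6_P F om γ₁ v₁ Γ N b y₁ t' := by
  have hsubball : Metric.ball x₀ (r / 2) ⊆ Metric.ball x₀ r := Metric.ball_subset_ball (by linarith)
  -- choice of the sign
  have main : ∀ (T : E → E) (u : E → ℝ), W6_Box F om x₀ r L M T u → v₁ t = T (γ₁ t) →
      W6_P F om γ₁ v₁ Γ N b y₁ t' := by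
    intro T u B hv
    obtain ⟨p1, p2, p3⟩ := hP
    have hx := hsubball ht
    have hTc : ContinuousAt T (γ₁ t) := B.lip.continuousOn.continuousAt (Metric.isOpen_ball.mem_nhds hx)
    have e1 : ∀ᶠ y in 𝓝 y₁, Γ y (t + b y) ∈ Metric.ball x₀ (r / 2) :=
      p1 (Metric.isOpen_ball.mem_nhds ht)
    have e2 : ∀ᶠ y in 𝓝 y₁, N y (t + b y) + T (Γ y (t + b y)) ≠ 0 := by
      have h3 : Tendsto (fun y => N y (t + b y) + T (Γ y (t + b y))) (𝓝 y₁)
          (𝓝 (v₁ t + T (γ₁ t))) := p2.add (hTc.tendsto.comp p1)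
      apply h3.eventually_ne
      rw [hv, ← two_smul ℝ]
      exact smul_ne_zero two_ne_zero (B.ne _ hx)
    have e3 : ∀ᶠ y in 𝓝 y₁, N y (t + b y) = T (Γ y (t + b y)) := by
      filter_upwards [e1, e2, hΓ] with y y1 y2 y3
      have := (B.rt _ (hsubball y1) _).1 (y3.2 (t + b y) (mem_univ _)).2.1
      rcases this with h4 | h4
      · exact h4
      · exact absurd (by rw [h4]; simp) y2
    have e4 := p3 x₀ r L M T u B hx
    have s1 := W6_short B hodd hM hτ0 hτ (W6_shift h₁ t) (by simpa using ht) (by simpa using hv)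
      (t' - t) htt
    simp only [add_sub_cancel, add_zero] at s1
    have f : ∀ᶠ y in 𝓝 y₁, Γ y (t' + b y) ∈ Metric.ball x₀ r ∧ N y (t' + b y) = T (Γ y (t' + b y)) ∧
        u (Γ y (t' + b y)) = u (γ₁ t') ∧ dist (Γ y (t' + b y)) (γ₁ t') ≤
          dist (Γ y (t + b y)) (γ₁ t) * Real.exp (L * τ) := by
      filter_upwards [e1, e3, e4, hΓ] with y y1 y3 y4 y5
      have s2 := W6_short B hodd hM hτ0 hτ (W6_shift y5 (t + b y)) (by simpa using y1)
        (by simpa using y3) (t' - t) htt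
      have s3 := W6_two B hodd hM hτ0 hτ (W6_shift y5 (t + b y)) (W6_shift h₁ t) (by simpa using y1)
        (by simpa using y3) (by simpa using ht) (by simpa using hv) (t' - t) htt
      have ee : t + b y + (t' - t) = t' + b y := by ring
      simp only [ee, add_sub_cancel, add_zero] at s2 s3
      refine ⟨s2.1, s2.2.1, ?_, s3⟩
      rw [s2.2.2, s1.2.2, y4]
    have q1 : Tendsto (fun y => Γ y (t' + b y)) (𝓝 y₁) (𝓝 (γ₁ t')) := by
      rw [tendsto_iff_dist_tendsto_zero]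
      have h5 : Tendsto (fun y => dist (Γ y (t + b y)) (γ₁ t) * Real.exp (L * τ)) (𝓝 y₁) (𝓝 0) := by
        have := (tendsto_iff_dist_tendsto_zero.1 p1).mul_const (Real.exp (L * τ))
        rwa [zero_mul] at this
      refine squeeze_zero' (Eventually.of_forall fun y => dist_nonneg) ?_ h5
      exact f.mono fun y hy => hy.2.2.2
    have hTc' : ContinuousAt T (γ₁ t') :=
      B.lip.continuousOn.continuousAt (Metric.isOpen_ball.mem_nhds s1.1)
    refine ⟨q1, ?_, ?_⟩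
    · rw [s1.2.1]
      refine (hTc'.tendsto.comp q1).congr' ?_
      exact f.mono fun y hy => hy.2.1.symm
    · intro x₀' r' L' M' T' u' B' hx'
      have h6 := q1.eventually (W6_transfer B hodd B' s1.1 hx')
      filter_upwards [h6, f] with y y1 y2
      exact y1 y2.2.2.1
  rcases (B.rt _ (hsubball ht) _).1 (h₁.2 t (mem_univ t)).2.1 with h | h
  · exact main T u B h
  · exact main _ _ (B.neg hodd) h

theorem W6_all [FiniteDimensional ℝ E] {μ : E → ℝ} (hF : SForm F μ) {γ₁ v₁ : ℝ → E}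
    {Γ N : E → ℝ → E} {b : E → ℝ} {y₁ : E} (h₁ : F.IsCurve γ₁ v₁ univ)
    (hΓ : ∀ᶠ y in 𝓝 y₁, F.IsCurve (Γ y) (N y) univ) (h0 : W6_P F hF.om γ₁ v₁ Γ N b y₁ 0) (t : ℝ) :
    W6_P F hF.om γ₁ v₁ Γ N b y₁ t := by
  have key := isPreconnected_univ.induction₂ (s := (univ : Set ℝ))
    (fun a b' => W6_P F hF.om γ₁ v₁ Γ N b y₁ a ↔ W6_P F hF.om γ₁ v₁ Γ N b y₁ b') (by
      intro s _
      obtain ⟨r, L, M, T, u, hr, hM, B⟩ := W6_exists_box hF (h₁.2 s (mem_univ s)).1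
      have hτ0 : 0 < r / (2 * (M + 1)) := by positivity
      have hτ : (M + 1) * (r / (2 * (M + 1))) ≤ r / 2 := by
        apply le_of_eq; field_simp
      have e1 : ∀ᶠ s' in 𝓝 s, γ₁ s' ∈ Metric.ball (γ₁ s) (r / 2) :=
        (W6_cont h₁).continuousAt (Metric.ball_mem_nhds _ (by linarith))
      have e2 : ∀ᶠ s' in 𝓝 s, |s' - s| < r / (2 * (M + 1)) := by
        have := Metric.ball_mem_nhds s hτ0
        filter_upwards [this] with s' hs'
        rwa [Metric.mem_ball, Real.dist_eq] at hs'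
      rw [nhdsWithin_univ]
      filter_upwards [e1, e2] with s' h1 h2
      constructor
      · intro hP
        exact W6_step B hF.odd hr hM hτ0.le hτ h₁ hΓ (Metric.mem_ball_self (by linarith)) h2.le hP
      · intro hP
        exact W6_step B hF.odd hr hM hτ0.le hτ h₁ hΓ h1 (by rw [abs_sub_comm]; exact h2.le) hP)
    (fun a b' c _ _ _ h1 h2 => h1.trans h2) (fun a b' _ _ h1 => h1.symm) (mem_univ 0) (mem_univ t)
  exact key.1 h0

theorem W6_init [FiniteDimensional ℝ E] (B : W6_Box F om x₀ r L M T u)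
    (hodd : ∀ x ∈ F.V, ∀ w, F.Rt x w → om x (-w) = -om x w) (hM : 0 ≤ M)
    {Γ N : E → ℝ → E} (hΓ : ∀ y ∈ Metric.ball x₀ r, F.IsCurve (Γ y) (N y) univ ∧ Γ y 0 = y ∧ N y 0 = T y)
    {y₁ : E} (hy₁ : y₁ ∈ Metric.ball x₀ r) :
    W6_P F om (Γ y₁) (N y₁) Γ N (fun y => -(u y - u y₁)) y₁ 0 := by
  obtain ⟨r₁, hr₁, hsub⟩ := Metric.isOpen_iff.1 Metric.isOpen_ball y₁ hy₁
  have B₁ := B.mono hsub
  have hτ0 : 0 < r₁ / (2 * (M + 1)) := by positivity
  have hτ : (M + 1) * (r₁ / (2 * (M + 1))) ≤ r₁ / 2 := by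
    apply le_of_eq; field_simp
  have hy₁s : y₁ ∈ Metric.ball y₁ (r₁ / 2) := Metric.mem_ball_self (by linarith)
  have hb : Tendsto (fun y => -(u y - u y₁)) (𝓝 y₁) (𝓝 0) := by
    have h1 : ContinuousAt u y₁ := (B.prim y₁ hy₁).continuousAt
    have h2 := (h1.tendsto.sub_const (u y₁)).neg
    rwa [sub_self, neg_zero] at h2
  have e1 : ∀ᶠ y in 𝓝 y₁, y ∈ Metric.ball y₁ (r₁ / 2) := Metric.ball_mem_nhds _ (by linarith)
  have e2 : ∀ᶠ y in 𝓝 y₁, |-(u y - u y₁)| < r₁ / (2 * (M + 1)) := by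
    have := hb.abs
    rw [abs_zero] at this
    exact this.eventually (gt_mem_nhds hτ0)
  obtain ⟨c1, c2, c3⟩ := hΓ y₁ hy₁
  have f : ∀ᶠ y in 𝓝 y₁, N y (0 + -(u y - u y₁)) = T (Γ y (0 + -(u y - u y₁))) ∧
      u (Γ y (0 + -(u y - u y₁))) = u y₁ ∧
      dist (Γ y (0 + -(u y - u y₁))) (Γ y₁ (0 + -(u y - u y₁))) ≤
        dist y y₁ * Real.exp (L * (r₁ / (2 * (M + 1)))) := by
    filter_upwards [e1, e2] with y y1 y2
    obtain ⟨d1, d2, d3⟩ := hΓ y (hsub (Metric.ball_subset_ball (by linarith) y1))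
    have s2 := W6_short B₁ hodd hM hτ0.le hτ d1 (by rw [d2]; exact y1) (by rw [d2]; exact d3) _ y2.le
    have s3 := W6_two B₁ hodd hM hτ0.le hτ d1 c1 (by rw [d2]; exact y1) (by rw [d2]; exact d3)
      (by rw [c2]; exact hy₁s) (by rw [c2]; exact c3) _ y2.le
    rw [zero_add]
    refine ⟨s2.2.1, ?_, ?_⟩
    · rw [s2.2.2, d2]; ring
    · rw [d2, c2] at s3; exact s3
  have q1 : Tendsto (fun y => Γ y (0 + -(u y - u y₁))) (𝓝 y₁) (𝓝 (Γ y₁ 0)) := by
    have h3 : Tendsto (fun y => Γ y₁ (0 + -(u y - u y₁))) (𝓝 y₁) (𝓝 (Γ y₁ 0)) := by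
      have h4 : Tendsto (fun y => 0 + -(u y - u y₁)) (𝓝 y₁) (𝓝 (0 : ℝ)) := by
        simpa using hb
      exact ((W6_cont c1).tendsto 0).comp h4
    have h5 : Tendsto (fun y => dist (Γ y (0 + -(u y - u y₁))) (Γ y₁ (0 + -(u y - u y₁)))) (𝓝 y₁) (𝓝 0) := by
      have h6 : Tendsto (fun y => dist y y₁ * Real.exp (L * (r₁ / (2 * (M + 1))))) (𝓝 y₁) (𝓝 0) := by
        have h7 : Tendsto (fun y => dist y y₁) (𝓝 y₁) (𝓝 0) :=
          tendsto_iff_dist_tendsto_zero.1 tendsto_id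
        have := h7.mul_const (Real.exp (L * (r₁ / (2 * (M + 1)))))
        rwa [zero_mul] at this
      refine squeeze_zero' (Eventually.of_forall fun y => dist_nonneg) ?_ h6
      exact f.mono fun y hy => hy.2.2
    rw [tendsto_iff_dist_tendsto_zero] at h3 ⊢
    have h8 := h5.add h3
    rw [add_zero] at h8
    exact squeeze_zero (fun y => dist_nonneg) (fun y => dist_triangle _ _ _) h8
  have hTc : ContinuousAt T y₁ := B.lip.continuousOn.continuousAt (Metric.isOpen_ball.mem_nhds hy₁)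
  refine ⟨q1, ?_, ?_⟩
  · rw [c3]
    rw [c2] at q1
    exact (hTc.tendsto.comp q1).congr' (f.mono fun y hy => hy.1.symm)
  · intro x₀' r' L' M' T' u' B' hx'
    rw [c2] at hx' q1 ⊢
    have h6 := q1.eventually (W6_transfer B hodd B' hy₁ hx')
    filter_upwards [h6, f] with y y1 y2
    exact y1 y2.2.1

theorem W6_const [FiniteDimensional ℝ E] {μ : E → ℝ} (hF : SForm F μ)
    (B : W6_Box F hF.om x₀ r L M T u) (hr : 0 < r) (hM : 0 ≤ M)
    {Γ N : E → ℝ → E} (hΓ : ∀ y ∈ Metric.ball x₀ r, F.IsCurve (Γ y) (N y) univ ∧ Γ y 0 = y ∧ N y 0 = T y)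
    (t : ℝ) {y : E} (hy : y ∈ Metric.ball x₀ r) :
    μ (Γ y (t - (u y - u x₀))) = μ (Γ x₀ t) := by
  have hpre : IsPreconnected (Metric.ball x₀ r) := (convex_ball x₀ r).isPreconnected
  have key := hpre.induction₂
    (fun y₁ y => μ (Γ y₁ (t - (u y₁ - u x₀))) = μ (Γ y (t - (u y - u x₀)))) (by
      intro y₁ hy₁
      have hev : ∀ᶠ y in 𝓝 y₁, y ∈ Metric.ball x₀ r := Metric.isOpen_ball.mem_nhds hy₁
      have h1 := W6_all hF (hΓ y₁ hy₁).1 (hev.mono fun y hy => (hΓ y hy).1)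
        (W6_init B hF.odd hM hΓ hy₁) (t - (u y₁ - u x₀))
      obtain ⟨p1, p2, p3⟩ := h1
      obtain ⟨r₂, L₂, M₂, T₂, u₂, hr₂, hM₂, B₂⟩ := W6_exists_box hF
        ((hΓ y₁ hy₁).1.2 (t - (u y₁ - u x₀)) (mem_univ _)).1
      have hmem : Γ y₁ (t - (u y₁ - u x₀)) ∈ Metric.ball (Γ y₁ (t - (u y₁ - u x₀))) r₂ :=
        Metric.mem_ball_self hr₂
      have h2 := p3 _ _ _ _ _ _ B₂ hmem
      have h3 := W6_level u₂ μ (fun z => hF.om z (T₂ z)) _ _ (Metric.isOpen_ball.mem_nhds hmem)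
        (fun z hz => B₂.prim z hz) B₂.omc (W6_om_ne B₂ hmem)
        (fun z hz => hF.mu z (B₂.sub hz) _ ((B₂.rt z hz _).2 (Or.inl rfl)))
      have h4 := p1.eventually h3
      apply mem_nhdsWithin_of_mem_nhds
      filter_upwards [h2, h4] with y y1 y2
      have e : t - (u y₁ - u x₀) + -(u y - u y₁) = t - (u y - u x₀) := by ring
      rw [e] at y1 y2
      exact (y2 y1).symm)
    (fun a b c _ _ _ h1 h2 => h1.trans h2) (fun a b _ _ h1 => h1.symm) hy (Metric.mem_ball_self hr)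
  simpa using key

end box

theorem W6_curve_unique {E : Type*} [NormedAddCommGroup E] [NormedSpace ℝ E] [FiniteDimensional ℝ E]
    {F : SField E} {γ v γ' v' : ℝ → E} (h : F.IsCurve γ v univ) (h' : F.IsCurve γ' v' univ)
    (h0 : γ 0 = γ' 0) (hv : v 0 = v' 0) (t : ℝ) : γ t = γ' t :=
  (W5_unique F (-|t|) |t| (neg_nonpos.2 (abs_nonneg t)) (abs_nonneg t) γ v γ' v'
    (W5_mono h (subset_univ _)) (W5_mono h' (subset_univ _)) h0 hv t
    ⟨neg_abs_le t, le_abs_self t⟩).1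

/-- local shape invariance, with small shift -/
theorem W6_local {E : Type*} [NormedAddCommGroup E] [NormedSpace ℝ E] [FiniteDimensional ℝ E]
    (F : SField E) (μ : E → ℝ) (hF : SForm F μ)
    (hc : ∀ x ∈ F.V, ∀ w, F.Rt x w → ∃ γ v : ℝ → E, F.IsCurve γ v univ ∧ γ 0 = x ∧ v 0 = w)
    (y' : E) (hy' : y' ∈ F.V) (δ : ℝ) (hδ : 0 < δ) :
    ∃ U ∈ 𝓝 y', ∀ y ∈ U, ∀ γ v γ' v' : ℝ → E, F.IsCurve γ v univ → F.IsCurve γ' v' univ →
      γ 0 = y → γ' 0 = y' →
      ∃ ε a : ℝ, (ε = 1 ∨ ε = -1) ∧ |a| < δ ∧ ∀ t, μ (γ t) = μ (γ' (ε * t + a)) := by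
  classical
  obtain ⟨r, L, M, T, u, hr, hM, B⟩ := W6_exists_box hF hy'
  have hsel : ∀ y : E, ∃ γ v : ℝ → E, y ∈ Metric.ball y' r → F.IsCurve γ v univ ∧ γ 0 = y ∧ v 0 = T y := by
    intro y
    by_cases hy : y ∈ Metric.ball y' r
    · obtain ⟨γ, v, h1, h2, h3⟩ := hc y (B.sub hy) (T y) ((B.rt y hy _).2 (Or.inl rfl))
      exact ⟨γ, v, fun _ => ⟨h1, h2, h3⟩⟩
    · exact ⟨fun _ => 0, fun _ => 0, fun h => absurd h hy⟩
  choose Γ N hΓ using hsel
  have hcu : ContinuousAt u y' := (B.prim y' (Metric.mem_ball_self hr)).continuousAt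
  have e2 : ∀ᶠ y in 𝓝 y', |u y - u y'| < δ := by
    have := Metric.continuousAt_iff'.1 hcu δ hδ
    filter_upwards [this] with y hy
    rwa [Real.dist_eq] at hy
  refine ⟨_, Filter.inter_mem (Metric.ball_mem_nhds y' hr) e2, ?_⟩
  rintro y ⟨hy, hyδ⟩ γ v γ' v' h h' h0 h0'
  have hyδ' : |u y - u y'| < δ := hyδ
  -- core statement
  have core : ∀ γ v γ' v' : ℝ → E, F.IsCurve γ v univ → F.IsCurve γ' v' univ → γ 0 = y →
      γ' 0 = y' → v 0 = T y → v' 0 = T y' → ∀ t, μ (γ t) = μ (γ' (t + (u y - u y'))) := by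
    intro γ v γ' v' h h' h0 h0' hv hv' t
    have k1 := W6_const hF B hr hM hΓ (t + (u y - u y')) hy
    rw [add_sub_cancel_right] at k1
    obtain ⟨c1, c2, c3⟩ := hΓ y hy
    obtain ⟨d1, d2, d3⟩ := hΓ y' (Metric.mem_ball_self hr)
    rw [W6_curve_unique h c1 (by rw [h0, c2]) (by rw [hv, c3]),
      W6_curve_unique h' d1 (by rw [h0', d2]) (by rw [hv', d3])]
    exact k1
  have hpm : v 0 = T y ∨ v 0 = -T y := by
    have := (h.2 0 (mem_univ 0)).2.1
    rw [h0] at this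
    exact (B.rt y hy _).1 this
  have hpm' : v' 0 = T y' ∨ v' 0 = -T y' := by
    have := (h'.2 0 (mem_univ 0)).2.1
    rw [h0'] at this
    exact (B.rt y' (Metric.mem_ball_self hr) _).1 this
  rcases hpm with hv | hv <;> rcases hpm' with hv' | hv'
  · refine ⟨1, u y - u y', Or.inl rfl, hyδ', fun t => ?_⟩
    rw [one_mul]
    exact core γ v γ' v' h h' h0 h0' hv hv' t
  · refine ⟨-1, -(u y - u y'), Or.inr rfl, by rw [abs_neg]; exact hyδ', fun t => ?_⟩
    have := core γ v _ _ h (W6_rev h') h0 (by simpa using h0') hv (by simp [hv']) t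
    rw [this]
    congr 2
    ring
  · refine ⟨-1, u y - u y', Or.inr rfl, hyδ', fun t => ?_⟩
    have := core _ _ γ' v' (W6_rev h) h' (by simpa using h0) h0' (by simp [hv]) hv' (-t)
    simp only [neg_neg] at this
    rw [this]
    congr 2
    ring
  · refine ⟨1, -(u y - u y'), Or.inl rfl, by rw [abs_neg]; exact hyδ', fun t => ?_⟩
    have := core _ _ _ _ (W6_rev h) (W6_rev h') (by simpa using h0) (by simpa using h0') (by simp [hv])
      (by simp [hv']) (-t)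
    simp only [neg_neg] at this
    rw [this]
    congr 2
    ring

/-- global shape invariance on a connected `V` -/
theorem W6_global {E : Type*} [NormedAddCommGroup E] [NormedSpace ℝ E] [FiniteDimensional ℝ E]
    (F : SField E) (μ : E → ℝ) (hF : SForm F μ) (hV : IsPreconnected F.V)
    (hc : ∀ x ∈ F.V, ∀ w, F.Rt x w → ∃ γ v : ℝ → E, F.IsCurve γ v univ ∧ γ 0 = x ∧ v 0 = w) :
    ∀ γ v γ' v' : ℝ → E, F.IsCurve γ v univ → F.IsCurve γ' v' univ →
      ∃ ε a : ℝ, (ε = 1 ∨ ε = -1) ∧ ∀ t, μ (γ t) = μ (γ' (ε * t + a)) := by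
  intro γ v γ' v' h h'
  have key := hV.induction₂ (fun y' y => ∀ γ v γ' v' : ℝ → E, F.IsCurve γ v univ →
      F.IsCurve γ' v' univ → γ 0 = y → γ' 0 = y' →
      ∃ ε a : ℝ, (ε = 1 ∨ ε = -1) ∧ ∀ t, μ (γ t) = μ (γ' (ε * t + a))) (by
      intro y' hy'
      obtain ⟨U, hU, hloc⟩ := W6_local F μ hF hc y' hy' 1 one_pos
      apply mem_nhdsWithin_of_mem_nhds
      filter_upwards [hU] with y hy γ v γ' v' h h' h0 h0'
      obtain ⟨ε, a, h1, -, h2⟩ := hloc y hy γ v γ' v' h h' h0 h0'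
      exact ⟨ε, a, h1, h2⟩) (by
      intro x y z _ hy _ h1 h2 γ v γ' v' hγ hγ' h0 h0'
      obtain ⟨U, hU, -, T, -, hT⟩ := F.sec y hy
      obtain ⟨η, w, e1, e2, e3⟩ := hc y hy (T y) (((hT y (mem_of_mem_nhds hU)).2 _).2 (Or.inl rfl))
      obtain ⟨ε₁, a₁, s1, t1⟩ := h1 η w γ' v' e1 hγ' e2 h0'
      obtain ⟨ε₂, a₂, s2, t2⟩ := h2 γ v η w hγ e1 h0 e2
      refine ⟨ε₁ * ε₂, ε₁ * a₂ + a₁, ?_, fun t => ?_⟩
      · rcases s1 with s1 | s1 <;> rcases s2 with s2 | s2 <;> simp [s1, s2]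
      · rw [t2, t1]
        congr 2
        ring) (by
      intro x y _ _ h1 γ v γ' v' hγ hγ' h0 h0'
      obtain ⟨ε, a, s1, t1⟩ := h1 γ' v' γ v hγ' hγ h0' h0
      refine ⟨ε, -(ε * a), s1, fun t => ?_⟩
      rw [t1]
      congr 1
      rcases s1 with s1 | s1 <;> rw [s1] <;> ring_nf)
    (h'.2 0 (mem_univ 0)).1 (h.2 0 (mem_univ 0)).1
  exact key γ v γ' v' h h' rfl rfl

end Pool.Agent.helper68.B2
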